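import Mathlib
import Pool.Agent.Helper208.Rainbow.Main

set_option autoImplicit false

/-!
MP_85f9db_co, plan: codegree at least 25 suffices; `δ > n/2` and bipartite low pairs suffice.
Pieces: `S_Sum`, `S_Num`, `S_LLL` (statements below), `S_Col` (main colouring lemma).
-/

open Finset

namespace Pool.Agent.T9h97.RB

open Pool.Agent.Helper208.Rainbow

/-- (A) local lemma with the constant 11/10 (copy the proof of `lll_exp` in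
`Pool/Agent/Helper208/Rainbow/LLL.lean`, using `exp(-11/10 x) ≤ 1 - x` for `0 ≤ x ≤ 1/12`) -/
def S_LLL : Prop := ∀ (κ α ι : Type) [Fintype κ] [DecidableEq κ] [Fintype α] [DecidableEq α]
    [Fintype ι] [DecidableEq ι] [Nonempty (κ → α)] (A : ι → Finset (κ → α))
    (F : ι → Finset κ) (_ : ∀ i, DepOn (A i) (F i)) (x : ι → ℝ) (_ : ∀ i, 0 ≤ x i)
    (_ : ∀ i, x i ≤ 1 / 12) (Z : ℝ)
    (_ : ∀ k : κ, ∑ j ∈ univ.filter (fun j => k ∈ F j), x j ≤ Z)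
    (_ : ∀ i, ((A i).card : ℝ) ≤
      (x i * Real.exp (-(11 / 10 * ((F i).card * Z)))) * Fintype.card (κ → α)),
    ∃ ω : κ → α, ∀ i, ω ∉ A i

/-- (B) summation by parts -/
def S_Sum : Prop := ∀ (V : Type) [DecidableEq V] (N : Finset V) (τ : V → ℕ) (k : ℕ) (D r : ℝ),
    0 ≤ D → 0 ≤ r → r < 1 → (∀ y ∈ N, k ≤ τ y) →
    (∀ s, k ≤ s → ((N.filter (fun y => τ y ≤ s)).card : ℝ) ≤ D * s) →
    ∑ y ∈ N, r ^ (τ y) ≤ D * (k * r ^ k + r ^ (k + 1) / (1 - r))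

/-- numerical condition on the parameters -/
def Par (k m q : ℕ) (lam D : ℝ) : Prop :=
    1 < lam ∧ lam ≤ 3 / 2 ∧ (2 * ((q : ℝ) - 1) / q ^ 2) * lam < 1 ∧
    (1 - 2 * ((q : ℝ) - 1) / q ^ 2) * lam < 1 ∧
    44 / 10 * (D * (k * ((2 * ((q : ℝ) - 1) / q ^ 2) * lam) ^ k +
        ((2 * ((q : ℝ) - 1) / q ^ 2) * lam) ^ (k + 1) / (1 - (2 * ((q : ℝ) - 1) / q ^ 2) * lam)) +
      D * (m * ((1 - 2 * ((q : ℝ) - 1) / q ^ 2) * lam) ^ m +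
        ((1 - 2 * ((q : ℝ) - 1) / q ^ 2) * lam) ^ (m + 1) /
          (1 - (1 - 2 * ((q : ℝ) - 1) / q ^ 2) * lam))) ≤ 1 - 1 / lam

/-- (C) the numerical inequality for large scales. Suggestion: `q = 300 * (Nat.sqrt S + 1)`,
`lam = 1 + 1 / q`; then with `ρ = 2 (q - 1) / q²` one has `ρ lam ≤ 3 / q`,
`(1 - ρ) lam ≤ 1 - 1 / (2 q) ≤ exp (- 1 / (2 q))`, and `S / (2 q)` is of order `√S / 600`. -/
def S_Num : Prop := ∀ S : ℕ, 2 ^ 100 ≤ S → ∃ q : ℕ, 2 ≤ q ∧ ∃ lam : ℝ,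
    Par 3 S q lam (90 * (S : ℝ))

/-- (D) the colouring lemma -/
def S_Col : Prop := ∀ (V : Type) [Fintype V] [DecidableEq V] [Nonempty V] (G : SimpleGraph V)
    [DecidableRel G.Adj] (f : V → Bool) (S k m q : ℕ) (lam D : ℝ),
    2 ≤ q → (∀ u v, u ≠ v → ¬ G.Adj u v → t G u v < S → f u ≠ f v) →
    1 ≤ k → 1 ≤ m → m ≤ S → (∀ u v, u ≠ v → ¬ G.Adj u v → k ≤ t G u v) →
    (∀ x s, 1 ≤ s → ((DD G x s).card : ℝ) ≤ D * s) → Par k m q lam D →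
    ∃ col : Sym2 V → Bool, ∀ u v, u ≠ v → ¬ G.Adj u v →
      ∃ w, G.Adj u w ∧ G.Adj v w ∧ col s(u, w) ≠ col s(v, w)

end Pool.Agent.T9h97.RB
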