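import Mathlib
import Pool.Agent.T9h97.RB.Spec

set_option autoImplicit false

open Finset

namespace Pool.Agent.T9h97.RB

open Pool.Agent.Helper208.Rainbow

/-- numerical condition with a separate constant for the low pairs -/
def Par2 (k m q : ℕ) (lam Dl D : ℝ) : Prop :=
    1 < lam ∧ lam ≤ 3 / 2 ∧ (2 * ((q : ℝ) - 1) / q ^ 2) * lam < 1 ∧
    (1 - 2 * ((q : ℝ) - 1) / q ^ 2) * lam < 1 ∧
    44 / 10 * (Dl * (k * ((2 * ((q : ℝ) - 1) / q ^ 2) * lam) ^ k +
        ((2 * ((q : ℝ) - 1) / q ^ 2) * lam) ^ (k + 1) / (1 - (2 * ((q : ℝ) - 1) / q ^ 2) * lam)) +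
      D * (m * ((1 - 2 * ((q : ℝ) - 1) / q ^ 2) * lam) ^ m +
        ((1 - 2 * ((q : ℝ) - 1) / q ^ 2) * lam) ^ (m + 1) /
          (1 - (1 - 2 * ((q : ℝ) - 1) / q ^ 2) * lam))) ≤ 1 - 1 / lam

section col

variable {V : Type} [Fintype V] [DecidableEq V] (G : SimpleGraph V) [DecidableRel G.Adj]

/-- symmetric weight of a pair -/
noncomputable def XS (S : ℕ) (r1 r2 : ℝ) (x y : V) : ℝ :=
  if x ≠ y ∧ ¬ G.Adj x y then (if t G x y < S then r1 ^ (t G x y) else r2 ^ (t G x y)) else 0

/-- weight of an ordered pair -/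
noncomputable def XO (e : V ≃ Fin (Fintype.card V)) (S : ℕ) (r1 r2 : ℝ) (p : V × V) : ℝ :=
  if e p.1 < e p.2 then XS G S r1 r2 p.1 p.2 else 0

/-- bad event of an ordered pair -/
def EO (e : V ≃ Fin (Fintype.card V)) (f : V → Bool) (q : ℕ) [NeZero q] (p : V × V) :
    Finset (Sym2 V → Fin q) :=
  if e p.1 < e p.2 then EV G f q p else ∅

/-- edges of an ordered pair -/
def FO (e : V ≃ Fin (Fintype.card V)) (p : V × V) : Finset (Sym2 V) :=
  if e p.1 < e p.2 then FF G p else ∅

variable {G}

lemma XS_nonneg (S : ℕ) (r1 r2 : ℝ) (h1 : 0 ≤ r1) (h2 : 0 ≤ r2) (x y : V) :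
    0 ≤ XS G S r1 r2 x y := by
  unfold XS
  split_ifs <;> positivity

lemma XS_symm (S : ℕ) (r1 r2 : ℝ) (x y : V) : XS G S r1 r2 x y = XS G S r1 r2 y x := by
  unfold XS
  rw [t_comm G x y]
  have h : (x ≠ y ∧ ¬ G.Adj x y) ↔ (y ≠ x ∧ ¬ G.Adj y x) := by
    rw [ne_comm, G.adj_comm]
  by_cases hc : y ≠ x ∧ ¬ G.Adj y x
  · rw [if_pos hc, if_pos (h.mpr hc)]
  · rw [if_neg hc, if_neg (fun h' => hc (h.mp h'))]

lemma XO_nonneg (e : V ≃ Fin (Fintype.card V)) (S : ℕ) (r1 r2 : ℝ) (h1 : 0 ≤ r1) (h2 : 0 ≤ r2)
    (p : V × V) : 0 ≤ XO G e S r1 r2 p := by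
  unfold XO
  split_ifs
  · exact XS_nonneg S r1 r2 h1 h2 _ _
  · exact le_rfl

lemma EO_dep (e : V ≃ Fin (Fintype.card V)) (f : V → Bool) (q : ℕ) [NeZero q] (p : V × V) :
    DepOn (EO G e f q p) (FO G e p) := by
  unfold EO FO
  split_ifs
  · exact EV_dep f q p
  · intro ω ω' _
    simp

/-- weights at a vertex -/
lemma vertex_sum (hsum : S_Sum) (S k m : ℕ) (Dl D r1 r2 : ℝ) (hDl0 : 0 ≤ Dl) (hD0 : 0 ≤ D)
    (h1 : 0 ≤ r1) (h1' : r1 < 1) (h2 : 0 ≤ r2) (h2' : r2 < 1) (hk1 : 1 ≤ k) (hm1 : 1 ≤ m)
    (hmS : m ≤ S) (hk : ∀ u v, u ≠ v → ¬ G.Adj u v → k ≤ t G u v)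
    (hDl : ∀ x s, 1 ≤ s → (((DD G x s).filter (fun y => t G x y < S)).card : ℝ) ≤ Dl * s)
    (hD : ∀ x s, 1 ≤ s → ((DD G x s).card : ℝ) ≤ D * s) (x : V) :
    ∑ y, XS G S r1 r2 x y ≤ Dl * (k * r1 ^ k + r1 ^ (k + 1) / (1 - r1)) +
      D * (m * r2 ^ m + r2 ^ (m + 1) / (1 - r2)) := by
  classical
  have hN : ∑ y, XS G S r1 r2 x y =
      ∑ y ∈ univ.filter (fun y => x ≠ y ∧ ¬ G.Adj x y),
        (if t G x y < S then r1 ^ (t G x y) else r2 ^ (t G x y)) := by
    rw [sum_filter]
    rfl
  rw [hN, ← sum_filter_add_sum_filter_not _ (fun y => t G x y < S)]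
  have hcnt : ∀ (N : Finset V), (∀ y ∈ N, x ≠ y ∧ ¬ G.Adj x y) → ∀ s, 1 ≤ s →
      ((N.filter (fun y => t G x y ≤ s)).card : ℝ) ≤ D * s := by
    intro N hN s hs
    refine le_trans ?_ (hD x s hs)
    have : (N.filter (fun y => t G x y ≤ s)).card ≤ (DD G x s).card := by
      apply card_le_card
      intro y hy
      rw [mem_filter] at hy
      simp only [DD, mem_filter, mem_univ, true_and]
      exact ⟨(hN y hy.1).1.symm, (hN y hy.1).2, hy.2⟩
    exact_mod_cast this
  apply add_le_add
  · calc ∑ y ∈ (univ.filter (fun y => x ≠ y ∧ ¬ G.Adj x y)).filter (fun y => t G x y < S),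
        (if t G x y < S then r1 ^ (t G x y) else r2 ^ (t G x y))
        = ∑ y ∈ (univ.filter (fun y => x ≠ y ∧ ¬ G.Adj x y)).filter (fun y => t G x y < S),
          r1 ^ (t G x y) := by
          apply sum_congr rfl
          intro y hy
          rw [mem_filter] at hy
          rw [if_pos hy.2]
      _ ≤ _ := by
          apply hsum V _ (fun y => t G x y) k Dl r1 hDl0 h1 h1'
          · intro y hy
            simp only [mem_filter, mem_univ, true_and] at hy
            exact hk x y hy.1.1 hy.1.2
          · intro s hs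
            refine le_trans ?_ (hDl x s (le_trans hk1 hs))
            have : (((univ.filter (fun y => x ≠ y ∧ ¬ G.Adj x y)).filter
                (fun y => t G x y < S)).filter (fun y => t G x y ≤ s)).card ≤
                ((DD G x s).filter (fun y => t G x y < S)).card := by
              apply card_le_card
              intro y hy
              simp only [mem_filter, mem_univ, true_and] at hy
              simp only [DD, mem_filter, mem_univ, true_and]
              exact ⟨⟨hy.1.1.1.symm, hy.1.1.2, hy.2⟩, hy.1.2⟩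
            exact_mod_cast this
  · calc ∑ y ∈ (univ.filter (fun y => x ≠ y ∧ ¬ G.Adj x y)).filter (fun y => ¬ t G x y < S),
        (if t G x y < S then r1 ^ (t G x y) else r2 ^ (t G x y))
        = ∑ y ∈ (univ.filter (fun y => x ≠ y ∧ ¬ G.Adj x y)).filter (fun y => ¬ t G x y < S),
          r2 ^ (t G x y) := by
          apply sum_congr rfl
          intro y hy
          rw [mem_filter] at hy
          rw [if_neg hy.2]
      _ ≤ _ := by
          apply hsum V _ (fun y => t G x y) m D r2 hD0 h2 h2'
          · intro y hy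
            simp only [mem_filter, mem_univ, true_and] at hy
            omega
          · intro s hs
            apply hcnt _ _ s (le_trans hm1 hs)
            intro y hy
            simp only [mem_filter, mem_univ, true_and] at hy
            exact hy.1

/-- weights at an edge -/
lemma edge_sum (e : V ≃ Fin (Fintype.card V)) (S : ℕ) (r1 r2 : ℝ) (h1 : 0 ≤ r1) (h2 : 0 ≤ r2)
    (Z0 : ℝ) (hZ : ∀ x, ∑ y, XS G S r1 r2 x y ≤ Z0) (d : Sym2 V) :
    ∑ p ∈ univ.filter (fun p => d ∈ FO G e p), XO G e S r1 r2 p ≤ 2 * Z0 := by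
  induction d using Sym2.ind with
  | _ a b =>
    have hnn := XO_nonneg (G := G) e S r1 r2 h1 h2
    have hsub : univ.filter (fun p => s(a, b) ∈ FO G e p) ⊆
        ((univ.image (fun y => ((a, y) : V × V))) ∪ (univ.image (fun y => ((y, a) : V × V)))) ∪
        ((univ.image (fun y => ((b, y) : V × V))) ∪ (univ.image (fun y => ((y, b) : V × V)))) := by
      rintro ⟨u, v⟩ hp
      simp only [mem_filter, mem_univ, true_and, FO] at hp
      split_ifs at hp with hc0
      · unfold FF at hp
        split_ifs at hp with hc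
        · simp only [mem_union, mem_image] at hp
          simp only [mem_union, mem_image, mem_univ, true_and, Prod.mk.injEq, exists_eq_right]
          rcases hp with ⟨w, -, hw⟩ | ⟨w, -, hw⟩
          · rw [Sym2.eq_iff] at hw
            rcases hw with hw | hw
            · left; left; exact hw.1.symm
            · right; left; exact hw.1.symm
          · rw [Sym2.eq_iff] at hw
            rcases hw with hw | hw
            · left; right; exact ⟨u, rfl, hw.1.symm⟩
            · right; right; exact ⟨u, rfl, hw.1.symm⟩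
        · simp at hp
      · simp at hp
    have hun : ∀ A B : Finset (V × V), ∑ p ∈ A ∪ B, XO G e S r1 r2 p ≤
        ∑ p ∈ A, XO G e S r1 r2 p + ∑ p ∈ B, XO G e S r1 r2 p := by
      intro A B
      rw [← sum_union_inter]
      have : 0 ≤ ∑ p ∈ A ∩ B, XO G e S r1 r2 p := sum_nonneg fun p _ => hnn p
      linarith
    have hl : ∀ c : V, ∑ p ∈ univ.image (fun y => ((c, y) : V × V)), XO G e S r1 r2 p +
        ∑ p ∈ univ.image (fun y => ((y, c) : V × V)), XO G e S r1 r2 p ≤ Z0 := by
      intro c
      rw [sum_image (by intro x _ y _ h; simpa using h),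
        sum_image (by intro x _ y _ h; simpa using h), ← sum_add_distrib]
      refine le_trans (sum_le_sum ?_) (hZ c)
      intro y _
      unfold XO
      simp only
      have h0 := XS_nonneg (G := G) S r1 r2 h1 h2 c y
      rcases lt_trichotomy (e c) (e y) with h | h | h
      · rw [if_pos h, if_neg (not_lt.mpr h.le)]
        linarith
      · rw [h, if_neg (lt_irrefl _), if_neg (lt_irrefl _)]
        linarith
      · rw [if_neg (not_lt.mpr h.le), if_pos h, XS_symm S r1 r2 y c]
        linarith
    refine le_trans (sum_le_sum_of_subset_of_nonneg hsub (fun p _ _ => hnn p)) ?_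
    refine le_trans (hun _ _) ?_
    have h3 := hun (univ.image (fun y => ((a, y) : V × V))) (univ.image (fun y => ((y, a) : V × V)))
    have h4 := hun (univ.image (fun y => ((b, y) : V × V))) (univ.image (fun y => ((y, b) : V × V)))
    have := hl a
    have := hl b
    linarith

lemma col_of_omega (f : V → Bool) (q : ℕ) [NeZero q] {ω : Sym2 V → Fin q}
    (hω : ∀ u v, u ≠ v → ¬ G.Adj u v → ω ∉ EV G f q (u, v) ∨ ω ∉ EV G f q (v, u)) :
    ∃ col : Sym2 V → Bool, ∀ u v, u ≠ v → ¬ G.Adj u v →
      ∃ w, G.Adj u w ∧ G.Adj v w ∧ col s(u, w) ≠ col s(v, w) := by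
  have key : ∀ u v, u ≠ v → ¬ G.Adj u v → ω ∉ EV G f q (u, v) →
      ∃ w, G.Adj u w ∧ G.Adj v w ∧
        (xor (Sym2.lift ⟨fun a b => xor (f a) (f b), fun a b => Bool.xor_comm _ _⟩ s(u, w))
          (decide (ω s(u, w) = 0))) ≠
        (xor (Sym2.lift ⟨fun a b => xor (f a) (f b), fun a b => Bool.xor_comm _ _⟩ s(v, w))
          (decide (ω s(v, w) = 0))) := by
    intro u v huv hadj h1
    unfold EV at h1
    rw [if_pos ⟨huv, hadj⟩] at h1
    simp only [mem_filter, mem_univ, true_and, not_forall] at h1
    obtain ⟨w, hw, h2⟩ := h1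
    have hw' : G.Adj u w ∧ G.Adj v w := by simpa [W] using hw
    refine ⟨w, hw'.1, hw'.2, ?_⟩
    simp only [RR, mem_filter, mem_univ, true_and] at h2
    simp only [Sym2.lift_mk]
    intro h3
    apply h2
    revert h3
    generalize decide (ω s(u, w) = 0) = x
    generalize decide (ω s(v, w) = 0) = y
    cases f u <;> cases f v <;> cases f w <;> cases x <;> cases y <;> simp
  refine ⟨fun e => xor (Sym2.lift ⟨fun a b => xor (f a) (f b), fun a b => Bool.xor_comm _ _⟩ e)
    (decide (ω e = 0)), ?_⟩
  intro u v huv hadj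
  rcases hω u v huv hadj with h | h
  · exact key u v huv hadj h
  · obtain ⟨w, h1, h2, h3⟩ := key v u huv.symm (fun h' => hadj h'.symm) h
    exact ⟨w, h2, h1, h3.symm⟩

end col

/-- (D) -/
theorem col2 (hlll : S_LLL) (hsum : S_Sum) (V : Type) [Fintype V] [DecidableEq V] [Nonempty V]
    (G : SimpleGraph V) [DecidableRel G.Adj] (f : V → Bool) (S k m q : ℕ) (lam Dl D : ℝ)
    (hq : 2 ≤ q) (hf : ∀ u v, u ≠ v → ¬ G.Adj u v → t G u v < S → f u ≠ f v)
    (hk1 : 1 ≤ k) (hm1 : 1 ≤ m) (hmS : m ≤ S) (hk : ∀ u v, u ≠ v → ¬ G.Adj u v → k ≤ t G u v)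
    (hDl : ∀ x s, 1 ≤ s → (((DD G x s).filter (fun y => t G x y < S)).card : ℝ) ≤ Dl * s)
    (hD : ∀ x s, 1 ≤ s → ((DD G x s).card : ℝ) ≤ D * s) (hPar : Par2 k m q lam Dl D) :
    ∃ col : Sym2 V → Bool, ∀ u v, u ≠ v → ¬ G.Adj u v →
      ∃ w, G.Adj u w ∧ G.Adj v w ∧ col s(u, w) ≠ col s(v, w) := by
  classical
  obtain ⟨hl1, hl2, hr1, hr2, hnum⟩ := hPar
  haveI : NeZero q := ⟨by omega⟩
  have hqR : (2 : ℝ) ≤ q := by exact_mod_cast hq
  have hq0 : (0 : ℝ) < q := by linarith
  set ρ : ℝ := 2 * ((q : ℝ) - 1) / q ^ 2 with hρ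
  have hρ0 : 0 ≤ ρ := by
    rw [hρ]
    apply div_nonneg (by linarith) (by positivity)
  have hρ1 : ρ ≤ 1 / 2 := by
    rw [hρ, div_le_div_iff₀ (by positivity) (by norm_num)]
    nlinarith [sq_nonneg ((q : ℝ) - 2)]
  have hlam0 : 0 < lam := by linarith
  set r1 := ρ * lam with hr1d
  set r2 := (1 - ρ) * lam with hr2d
  have h1 : 0 ≤ r1 := by positivity
  have h2 : 0 ≤ r2 := mul_nonneg (by linarith) hlam0.le
  have hD0 : 0 ≤ D := by
    have h3 := hD (Classical.arbitrary V) 1 le_rfl
    have h4 : (0 : ℝ) ≤ ((DD G (Classical.arbitrary V) 1).card : ℝ) := by positivity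
    simp only [Nat.cast_one, mul_one] at h3
    linarith
  have hDl0 : 0 ≤ Dl := by
    have h3 := hDl (Classical.arbitrary V) 1 le_rfl
    have h4 : (0 : ℝ) ≤ (((DD G (Classical.arbitrary V) 1).filter
      (fun y => t G (Classical.arbitrary V) y < S)).card : ℝ) := by positivity
    simp only [Nat.cast_one, mul_one] at h3
    linarith
  set Z0 : ℝ := Dl * (k * r1 ^ k + r1 ^ (k + 1) / (1 - r1)) +
      D * (m * r2 ^ m + r2 ^ (m + 1) / (1 - r2)) with hZ0
  have hZ := vertex_sum (G := G) hsum S k m Dl D r1 r2 hDl0 hD0 h1 hr1 h2 hr2 hk1 hm1 hmS hk hDl hD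
  rw [← hZ0] at hZ
  have hlaminv : 1 - 1 / lam ≤ 1 / 3 := by
    have : 2 / 3 ≤ 1 / lam := by
      rw [div_le_div_iff₀ (by norm_num) hlam0]
      linarith
    linarith
  have hZsmall : Z0 ≤ 1 / 12 := by linarith
  have hXS : ∀ x y, XS G S r1 r2 x y ≤ 1 / 12 := by
    intro x y
    refine le_trans (le_trans ?_ (hZ x)) hZsmall
    exact single_le_sum (f := fun y => XS G S r1 r2 x y)
      (fun y _ => XS_nonneg S r1 r2 h1 h2 x y) (mem_univ y)
  set e := Fintype.equivFin V with he
  obtain ⟨ω, hω⟩ := hlll (Sym2 V) (Fin q) (V × V) (EO G e f q) (FO G e) (EO_dep e f q)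
    (XO G e S r1 r2) (XO_nonneg e S r1 r2 h1 h2) (by
      intro p
      unfold XO
      split_ifs
      · exact hXS _ _
      · norm_num) (2 * Z0) (edge_sum e S r1 r2 h1 h2 Z0 hZ) (by
      intro p
      by_cases hlt : e p.1 < e p.2
      · by_cases hc : p.1 ≠ p.2 ∧ ¬ G.Adj p.1 p.2
        · have hcard := EV_card f q p hc
          have hF := FF_card p hc
          set T := t G p.1 p.2 with hT
          have hEO : EO G e f q p = EV G f q p := by
            unfold EO; rw [if_pos hlt]
          have hFO : FO G e p = FF G p := by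
            unfold FO; rw [if_pos hlt]
          have hXO : XO G e S r1 r2 p = if T < S then r1 ^ T else r2 ^ T := by
            unfold XO XS
            rw [if_pos hlt, if_pos hc]
          rw [hEO, hFO, hXO]
          have hcardR : ((EV G f q p).card : ℝ) * ((q : ℝ) ^ 2) ^ T =
              ((RR q (f p.1) (f p.2)).card : ℝ) ^ T * Fintype.card (Sym2 V → Fin q) := by
            exact_mod_cast hcard
          have h3 : ((EV G f q p).card : ℝ) =
              (((RR q (f p.1) (f p.2)).card : ℝ) / (q : ℝ) ^ 2) ^ T *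
                Fintype.card (Sym2 V → Fin q) := by
            rw [div_pow, div_mul_eq_mul_div, ← hcardR, mul_div_assoc, div_self (by positivity),
              mul_one]
          rw [h3]
          apply mul_le_mul_of_nonneg_right _ (by positivity)
          -- probability of coincidence
          have hq1 : ((q - 1 : ℕ) : ℝ) = (q : ℝ) - 1 := by
            rw [Nat.cast_sub (by omega)]; simp
          set R := (((RR q (f p.1) (f p.2)).card : ℝ) / (q : ℝ) ^ 2) with hR
          have hR0 : 0 ≤ R := by positivity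
          have hRr : R * lam ≤ if T < S then r1 else r2 := by
            by_cases hff : f p.1 = f p.2
            · have hnlt : ¬ T < S := fun hTS => hf p.1 p.2 hc.1 hc.2 hTS hff
              rw [if_neg hnlt, hr2d]
              apply mul_le_mul_of_nonneg_right _ hlam0.le
              have h4 := RR_eq q (f p.2)
              rw [← hff] at h4
              have h5 : ((RR q (f p.1) (f p.1)).card : ℝ) + 2 * ((q : ℝ) - 1) = (q : ℝ) ^ 2 := by
                rw [← hq1]; exact_mod_cast h4
              rw [hR, hρ, ← hff, div_le_iff₀ (by positivity), sub_mul,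
                div_mul_cancel₀ _ (by positivity)]
              linarith
            · have h4 := RR_ne q hff
              have h5 : ((RR q (f p.1) (f p.2)).card : ℝ) = 2 * ((q : ℝ) - 1) := by
                rw [← hq1]; exact_mod_cast h4
              have h6 : R = ρ := by rw [hR, hρ, h5]
              rw [h6]
              split_ifs
              · exact le_rfl
              · rw [hr2d]
                apply mul_le_mul_of_nonneg_right _ hlam0.le
                linarith
          have hXT : (R * lam) ^ T ≤ if T < S then r1 ^ T else r2 ^ T := by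
            split_ifs at hRr ⊢ with hTS
            · exact pow_le_pow_left₀ (by positivity) hRr T
            · exact pow_le_pow_left₀ (by positivity) hRr T
          have hexp : (1 / lam) ^ T ≤ Real.exp (-(11 / 10 * (((FF G p).card : ℝ) * (2 * Z0)))) := by
            have h5 : 1 / lam ≤ Real.exp (-(44 / 10 * Z0)) := by
              have := Real.add_one_le_exp (-(44 / 10 * Z0))
              linarith
            have hZ00 : 0 ≤ Z0 := le_trans (sum_nonneg fun y _ => XS_nonneg S r1 r2 h1 h2 p.1 y)
              (hZ p.1)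
            calc (1 / lam) ^ T ≤ (Real.exp (-(44 / 10 * Z0))) ^ T :=
                  pow_le_pow_left₀ (by positivity) h5 T
              _ = Real.exp (T * (-(44 / 10 * Z0))) := by rw [← Real.exp_nat_mul]
              _ ≤ _ := by
                  apply Real.exp_le_exp.mpr
                  have h6 : ((FF G p).card : ℝ) ≤ 2 * T := by exact_mod_cast hF
                  have h7 := mul_le_mul_of_nonneg_right h6 (show (0 : ℝ) ≤ 2 * Z0 by linarith)
                  linarith
          calc R ^ T = (R * lam) ^ T * (1 / lam) ^ T := by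
                rw [← mul_pow]
                congr 1
                field_simp
            _ ≤ (if T < S then r1 ^ T else r2 ^ T) *
                Real.exp (-(11 / 10 * (((FF G p).card : ℝ) * (2 * Z0)))) := by
                apply mul_le_mul hXT hexp (by positivity)
                split_ifs <;> positivity
        · have hEV : EO G e f q p = ∅ := by
            unfold EO EV
            rw [if_neg hc]
            simp
          rw [hEV]
          simp only [card_empty, Nat.cast_zero]
          have := XO_nonneg (G := G) e S r1 r2 h1 h2 p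
          positivity
      · have hEV : EO G e f q p = ∅ := by
          unfold EO
          rw [if_neg hlt]
        rw [hEV]
        simp only [card_empty, Nat.cast_zero]
        have := XO_nonneg (G := G) e S r1 r2 h1 h2 p
        positivity)
  exact col_of_omega f q (fun u v huv hadj => by
    rcases lt_trichotomy (e u) (e v) with h | h | h
    · left
      have h0 := hω (u, v)
      unfold EO at h0
      rwa [if_pos h] at h0
    · exact absurd (e.injective h) huv
    · right
      have h0 := hω (v, u)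
      unfold EO at h0
      rwa [if_pos h] at h0)

theorem col (hlll : S_LLL) (hsum : S_Sum) : S_Col := by
  intro V _ _ _ G _ f S k m q lam D hq hf hk1 hm1 hmS hk hD hPar
  refine col2 hlll hsum V G f S k m q lam D D hq hf hk1 hm1 hmS hk ?_ hD hPar
  intro x s hs
  refine le_trans ?_ (hD x s hs)
  exact_mod_cast card_le_card (filter_subset _ _)

end Pool.Agent.T9h97.RB
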