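import Mathlib
import Pool.Agent.T9h97.RB.Col

set_option autoImplicit false

open Finset

namespace Pool.Agent.T9h97.RB

lemma rangeA : Par2 25 25 2 (104 / 100) 0 (90 * 40) := by
  unfold Par2
  norm_num

lemma rangeB : Par2 25 41 3 (103 / 100) (90 * 700) (90 * 700) := by
  unfold Par2
  norm_num

lemma rangeC : Par2 25 100 5 (103 / 100) (90 * 2000000) (90 * 2000000) := by
  unfold Par2
  norm_num

set_option exponentiation.threshold 5000 in
lemma rangeD : Par2 25 300 10 (103 / 100) (90 * 2 ^ 42) (90 * 2 ^ 42) := by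
  unfold Par2
  norm_num

set_option exponentiation.threshold 5000 in
lemma rangeE : Par2 25 4000 60 (101 / 100) (90 * 2 ^ 100) (90 * 2 ^ 100) := by
  unfold Par2
  norm_num

end Pool.Agent.T9h97.RB
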