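import Mathlib
import Pool.Agent.T9h97.RB.Ranges
import Pool.Agent.T9h73.RB.LLL
import Pool.Agent.T9h29.RB.Num

set_option autoImplicit false

open Finset

namespace Pool.Agent.T9h97.RB

open Pool.Agent.Helper208.Rainbow

variable {V : Type} [Fintype V] [DecidableEq V] {G : SimpleGraph V} [DecidableRel G.Adj]

/-- the scale lemma with a given bipartition of the pairs of small codegree -/
lemma scale2 [Nonempty V] (hdeg : ∀ u, Fintype.card V ≤ 2 * (nb G u).card) (B : ℕ)
    (f0 : V → Bool) (hf0 : ∀ u v, u ≠ v → ¬ G.Adj u v → t G u v < B → f0 u ≠ f0 v) :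
    ∃ (S : ℕ) (f : V → Bool), B ≤ S ∧
      (∀ u v, u ≠ v → ¬ G.Adj u v → t G u v < S → f u ≠ f v) ∧
      (∀ x s, 1 ≤ s → (DD G x s).card < 90 * s * S) := by
  classical
  let P : ℕ → Prop := fun s => ∃ (x : V) (s' : ℕ), 1 ≤ s' ∧ 90 * s * s' ≤ (DD G x s').card
  have hP0 : P 0 := ⟨Classical.arbitrary V, 1, le_rfl, by simp⟩
  have hPb : ∀ s, P s → s ≤ Fintype.card V := by
    rintro s ⟨x, s', hs', h⟩
    have h1 : (DD G x s').card ≤ Fintype.card V := card_le_univ _
    have h2 : s ≤ s * s' := Nat.le_mul_of_pos_right _ hs'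
    have h3 : 90 * s * s' = 90 * (s * s') := by ring
    omega
  set s1 := Nat.findGreatest P (Fintype.card V) with hs1
  have hPs1 : P s1 := Nat.findGreatest_spec (P := P) (Nat.zero_le _) hP0
  have hnot : ¬ P (s1 + 1) := by
    intro h
    have h1 := hPb _ h
    have h2 := Nat.le_findGreatest h1 h
    omega
  have hbound : ∀ x s, 1 ≤ s → (DD G x s).card < 90 * s * (s1 + 1) := by
    intro x s hs
    by_contra hcon
    push Not at hcon
    apply hnot
    refine ⟨x, s, hs, ?_⟩
    calc 90 * (s1 + 1) * s = 90 * s * (s1 + 1) := by ring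
      _ ≤ _ := hcon
  rcases Nat.lt_or_ge s1 B with h0 | h0
  · refine ⟨B, f0, le_rfl, hf0, ?_⟩
    intro x s hs
    refine lt_of_lt_of_le (hbound x s hs) ?_
    exact Nat.mul_le_mul_left _ h0
  · rcases Nat.eq_zero_or_pos s1 with h00 | h00
    · refine ⟨s1 + 1, f0, by omega, ?_, hbound⟩
      intro u v huv hadj ht
      have ht0 : t G u v = 0 := by omega
      exfalso
      -- the codegree of a nonadjacent pair is positive
      have h1 := card_union_add_card_inter (nb G u) (nb G v)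
      rw [← W_eq] at h1
      have h2 := hdeg u
      have h3 := hdeg v
      have h4 : (nb G u ∪ nb G v) ⊆ univ.erase u := by
        intro w hw
        rw [mem_union, mem_nb, mem_nb] at hw
        rw [mem_erase]
        refine ⟨?_, mem_univ _⟩
        rintro rfl
        rcases hw with hw | hw
        · exact G.irrefl hw
        · exact hadj hw.symm
      have h5 := card_le_card h4
      rw [card_erase_of_mem (mem_univ _), card_univ] at h5
      have h6 : 0 < Fintype.card V := Fintype.card_pos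
      have h7 : (W G u v).card = 0 := ht0
      omega
    · obtain ⟨x, s', hs', h⟩ := hPs1
      obtain ⟨f, hf⟩ := structure_lemma hdeg s1 s' h00 hs' x h
      exact ⟨s1 + 1, f, by omega, fun u v huv _ ht => hf u v huv (by omega), hbound⟩

/-- three common neighbours and bipartite low pairs -/
theorem main3 [Nonempty V] (hdeg : ∀ u, Fintype.card V ≤ 2 * (nb G u).card)
    (h3 : ∀ u v, u ≠ v → ¬ G.Adj u v → 3 ≤ t G u v)
    (f0 : V → Bool) (hf0 : ∀ u v, u ≠ v → ¬ G.Adj u v → t G u v < 2 ^ 100 → f0 u ≠ f0 v) :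
    ∃ col : Sym2 V → Bool, ∀ u v, u ≠ v → ¬ G.Adj u v →
      ∃ w, G.Adj u w ∧ G.Adj v w ∧ col s(u, w) ≠ col s(v, w) := by
  obtain ⟨S, f, hBS, hf, hD⟩ := scale2 hdeg (2 ^ 100) f0 hf0
  obtain ⟨q, hq, lam, hpar⟩ := Pool.Agent.T9h29.RB.s_num S hBS
  refine col Pool.Agent.T9h73.RB.s_lll Pool.Agent.T9h73.RB.s_sum V G f S 3 S q lam
    (90 * (S : ℝ)) hq hf (by norm_num) (le_trans (by norm_num) hBS) le_rfl h3 ?_ hpar
  intro x s hs
  have h1 := (hD x s hs).le
  have h2 : ((DD G x s).card : ℝ) ≤ 90 * s * S := by exact_mod_cast h1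
  linarith

/-- twenty-five common neighbours -/
theorem main25 [Nonempty V] (hdeg : ∀ u, Fintype.card V ≤ 2 * (nb G u).card)
    (h25 : ∀ u v, u ≠ v → ¬ G.Adj u v → 25 ≤ t G u v) :
    ∃ col : Sym2 V → Bool, ∀ u v, u ≠ v → ¬ G.Adj u v →
      ∃ w, G.Adj u w ∧ G.Adj v w ∧ col s(u, w) ≠ col s(v, w) := by
  obtain ⟨S, f, hBS, hf, hD⟩ := scale2 hdeg 25 (fun _ => true) (by
    intro u v huv hadj ht
    have := h25 u v huv hadj
    omega)
  have hDr : ∀ Dr : ℝ, 90 * (S : ℝ) ≤ Dr → ∀ x s, 1 ≤ s →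
      ((DD G x s).card : ℝ) ≤ Dr * s := by
    intro Dr hN x s hs
    have h1 := (hD x s hs).le
    have h2 : ((DD G x s).card : ℝ) ≤ 90 * s * S := by exact_mod_cast h1
    have h3 : (90 * (S : ℝ)) * s ≤ Dr * s := mul_le_mul_of_nonneg_right hN (by positivity)
    linarith
  have hDf : ∀ Dr : ℝ, 90 * (S : ℝ) ≤ Dr → ∀ x s, 1 ≤ s →
      (((DD G x s).filter (fun y => t G x y < S)).card : ℝ) ≤ Dr * s := by
    intro Dr hN x s hs
    refine le_trans ?_ (hDr Dr hN x s hs)
    exact_mod_cast card_le_card (filter_subset _ _)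
  rcases Nat.lt_or_ge 40 S with hA | hA
  · rcases Nat.lt_or_ge 700 S with hB | hB
    · rcases Nat.lt_or_ge 2000000 S with hC | hC
      · rcases Nat.lt_or_ge (2 ^ 42) S with hE | hE
        · rcases Nat.lt_or_ge (2 ^ 100) S with hF | hF
          · obtain ⟨q, hq, lam, hpar⟩ := Pool.Agent.T9h29.RB.s_num S hF.le
            exact col Pool.Agent.T9h73.RB.s_lll Pool.Agent.T9h73.RB.s_sum V G f S 3 S q lam
              (90 * (S : ℝ)) hq hf (by norm_num) (le_trans (by norm_num) hF.le) le_rfl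
              (fun u v h1 h2 => le_trans (by norm_num) (h25 u v h1 h2)) (hDr _ le_rfl) hpar
          · have h0 : 90 * (S : ℝ) ≤ 90 * 2 ^ 100 := by
              have : (S : ℝ) ≤ 2 ^ 100 := by exact_mod_cast hF
              linarith
            exact col2 Pool.Agent.T9h73.RB.s_lll Pool.Agent.T9h73.RB.s_sum V G f S 25 4000 60
              (101 / 100) (90 * 2 ^ 100) (90 * 2 ^ 100) (by norm_num) hf (by norm_num)
              (by norm_num) (le_trans (by norm_num) hE.le) h25 (hDf _ h0) (hDr _ h0) rangeE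
        · have h0 : 90 * (S : ℝ) ≤ 90 * 2 ^ 42 := by
            have : (S : ℝ) ≤ 2 ^ 42 := by exact_mod_cast hE
            linarith
          exact col2 Pool.Agent.T9h73.RB.s_lll Pool.Agent.T9h73.RB.s_sum V G f S 25 300 10
            (103 / 100) (90 * 2 ^ 42) (90 * 2 ^ 42) (by norm_num) hf (by norm_num)
            (by norm_num) (le_trans (by norm_num) hC.le) h25 (hDf _ h0) (hDr _ h0) rangeD
      · have h0 : 90 * (S : ℝ) ≤ 90 * 2000000 := by
          have : (S : ℝ) ≤ 2000000 := by exact_mod_cast hC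
          linarith
        exact col2 Pool.Agent.T9h73.RB.s_lll Pool.Agent.T9h73.RB.s_sum V G f S 25 100 5
          (103 / 100) (90 * 2000000) (90 * 2000000) (by norm_num) hf (by norm_num)
          (by norm_num) (le_trans (by norm_num) hB.le) h25 (hDf _ h0) (hDr _ h0) rangeC
    · have h0 : 90 * (S : ℝ) ≤ 90 * 700 := by
        have : (S : ℝ) ≤ 700 := by exact_mod_cast hB
        linarith
      exact col2 Pool.Agent.T9h73.RB.s_lll Pool.Agent.T9h73.RB.s_sum V G f S 25 41 3
        (103 / 100) (90 * 700) (90 * 700) (by norm_num) hf (by norm_num)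
        (by norm_num) hA h25 (hDf _ h0) (hDr _ h0) rangeB
  · have h0 : 90 * (S : ℝ) ≤ 90 * 40 := by
      have : (S : ℝ) ≤ 40 := by exact_mod_cast hA
      linarith
    refine col2 Pool.Agent.T9h73.RB.s_lll Pool.Agent.T9h73.RB.s_sum V G (fun _ => true) 25 25 25 2
      (104 / 100) 0 (90 * 40) (by norm_num) ?_ (by norm_num)
      (by norm_num) le_rfl h25 ?_ (hDr _ h0) rangeA
    · intro u v huv hadj ht
      have := h25 u v huv hadj
      omega
    · intro x s _
      have h1 : (DD G x s).filter (fun y => t G x y < 25) = ∅ := by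
        rw [filter_eq_empty_iff]
        intro y hy
        simp only [DD, mem_filter, mem_univ, true_and] at hy
        have := h25 x y hy.1.symm hy.2.1
        omega
      rw [h1]
      simp

/-- many low partners at one vertex -/
lemma low_bip_of_many [Nonempty V] (hdeg : ∀ u, Fintype.card V ≤ 2 * (nb G u).card) (B : ℕ)
    (hB : 1 ≤ B) (x : V) (s : ℕ) (hs : 1 ≤ s) (h : 90 * B * s ≤ (DD G x s).card) :
    ∃ f : V → Bool, ∀ u v, u ≠ v → ¬ G.Adj u v → t G u v < B → f u ≠ f v := by
  obtain ⟨f, hf⟩ := structure_lemma hdeg B s hB hs x h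
  exact ⟨f, fun u v huv _ ht => hf u v huv ht.le⟩

/-- few low pairs -/
lemma low_bip_of_few (hdeg : ∀ u, Fintype.card V ≤ 2 * (nb G u).card) (B : ℕ)
    (h : 2 * B * (univ.filter (fun p : V × V => p.1 ≠ p.2 ∧ ¬ G.Adj p.1 p.2 ∧
      t G p.1 p.2 < B)).card < Fintype.card V) :
    ∃ f : V → Bool, ∀ u v, u ≠ v → ¬ G.Adj u v → t G u v < B → f u ≠ f v := by
  classical
  set Lo := univ.filter (fun p : V × V => p.1 ≠ p.2 ∧ ¬ G.Adj p.1 p.2 ∧ t G p.1 p.2 < B) with hLo
  have hcard : (Lo.biUnion (fun p => W G p.1 p.2 ∪ (nb G p.1 ∪ nb G p.2)ᶜ)).card <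
      Fintype.card V := by
    refine lt_of_le_of_lt ?_ h
    refine le_trans card_biUnion_le ?_
    calc ∑ p ∈ Lo, (W G p.1 p.2 ∪ (nb G p.1 ∪ nb G p.2)ᶜ).card ≤ ∑ p ∈ Lo, 2 * B := by
          apply sum_le_sum
          intro p hp
          rw [hLo, mem_filter] at hp
          refine le_trans (card_union_le _ _) ?_
          have h1 := compl_union_le hdeg p.1 p.2
          have h2 : (W G p.1 p.2).card = t G p.1 p.2 := rfl
          have h3 := hp.2.2.2
          omega
      _ = 2 * B * Lo.card := by rw [sum_const, smul_eq_mul]; ring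
  obtain ⟨j, hj⟩ : ∃ j, j ∉ Lo.biUnion (fun p => W G p.1 p.2 ∪ (nb G p.1 ∪ nb G p.2)ᶜ) := by
    by_contra hcon
    push Not at hcon
    have h1 : Lo.biUnion (fun p => W G p.1 p.2 ∪ (nb G p.1 ∪ nb G p.2)ᶜ) = univ := by
      ext j; simp only [mem_univ, iff_true]; exact hcon j
    rw [h1, card_univ] at hcard
    exact lt_irrefl _ hcard
  refine ⟨fun u => decide (G.Adj u j), ?_⟩
  intro u v huv hadj ht hcon
  apply hj
  rw [mem_biUnion]
  refine ⟨(u, v), ?_, ?_⟩
  · rw [hLo, mem_filter]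
    exact ⟨mem_univ _, huv, hadj, ht⟩
  · simp only [mem_union, mem_compl, W, mem_filter, mem_univ, true_and, mem_nb]
    by_cases h1 : G.Adj u j
    · left
      refine ⟨h1, ?_⟩
      simpa [h1] using hcon
    · right
      rintro (h2 | h2)
      · exact h1 h2
      · apply h1
        simpa [h2] using hcon

end Pool.Agent.T9h97.RB
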