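import Mathlib
import Pool.Agent.T9h97.RB.Main

set_option autoImplicit false

open Finset

namespace Pool.Agent.T9h97.RB.RC

/-- The walk `p` is a rainbow path for the edge colouring `col`: it is a path and no two of its
edges receive the same colour. -/
def IsRainbowPath {V : Type} {G : SimpleGraph V} (col : Sym2 V → ℕ) {u v : V}
    (p : G.Walk u v) : Prop :=
  p.IsPath ∧ (p.edges.map col).Nodup

/-- Every two vertices are joined by a rainbow path. -/
def RainbowConnected {V : Type} (G : SimpleGraph V) (col : Sym2 V → ℕ) : Prop :=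
  ∀ u v : V, ∃ p : G.Walk u v, IsRainbowPath col p

/-- The rainbow connection number: the least `k` such that the edges of `G` can be coloured with
the `k` colours `0, …, k - 1` so that `G` is rainbow connected. -/
noncomputable def rc {V : Type} (G : SimpleGraph V) : ℕ :=
  sInf {k : ℕ | ∃ col : Sym2 V → ℕ, (∀ e ∈ G.edgeSet, col e < k) ∧ RainbowConnected G col}

/-- a colouring in which nonadjacent vertices have a common neighbour with two colours is a
rainbow connection colouring with two colours -/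
lemma upper {V : Type} (G : SimpleGraph V) (col : Sym2 V → Bool)
    (h : ∀ u v, u ≠ v → ¬ G.Adj u v → ∃ w, G.Adj u w ∧ G.Adj v w ∧ col s(u, w) ≠ col s(v, w)) :
    2 ∈ {k : ℕ | ∃ col : Sym2 V → ℕ, (∀ e ∈ G.edgeSet, col e < k) ∧ RainbowConnected G col} := by
  refine ⟨fun e => if col e then 1 else 0, ?_, ?_⟩
  · intro e _
    simp only
    split_ifs <;> norm_num
  · intro u v
    by_cases huv : u = v
    · subst huv
      exact ⟨SimpleGraph.Walk.nil, by simp, by simp⟩
    · by_cases hadj : G.Adj u v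
      · refine ⟨SimpleGraph.Walk.cons hadj SimpleGraph.Walk.nil, ?_, by simp⟩
        simp [SimpleGraph.Walk.cons_isPath_iff, huv]
      · obtain ⟨w, h1, h2, h3⟩ := h u v huv hadj
        refine ⟨SimpleGraph.Walk.cons h1 (SimpleGraph.Walk.cons h2.symm SimpleGraph.Walk.nil),
          ?_, ?_⟩
        · simp [SimpleGraph.Walk.cons_isPath_iff, huv, h1.ne, h2.ne']
        · have h4 : s(w, v) = s(v, w) := Sym2.eq_swap
          simp only [SimpleGraph.Walk.edges_cons, SimpleGraph.Walk.edges_nil, List.map_cons,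
            List.map_nil, List.nodup_cons, List.mem_singleton, List.not_mem_nil,
            not_false_eq_true, List.nodup_nil, and_true]
          rw [h4]
          revert h3
          cases col s(u, w) <;> cases col s(v, w) <;> simp

/-- one colour is not enough for a graph that is not complete -/
lemma lower {V : Type} (G : SimpleGraph V) (hG : G ≠ ⊤) (k : ℕ)
    (hk : k ∈ {k : ℕ | ∃ col : Sym2 V → ℕ, (∀ e ∈ G.edgeSet, col e < k) ∧
      RainbowConnected G col}) : 2 ≤ k := by
  obtain ⟨col, hcol, hrc⟩ := hk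
  by_contra hlt
  have hex : ∃ u v : V, u ≠ v ∧ ¬ G.Adj u v := by
    by_contra hcon
    push Not at hcon
    apply hG
    ext u v
    rw [SimpleGraph.top_adj]
    exact ⟨fun h => h.ne, fun h => hcon u v h⟩
  obtain ⟨u, v, huv, hadj⟩ := hex
  obtain ⟨p, -, hp⟩ := hrc u v
  cases p with
  | nil => exact huv rfl
  | cons h1 p =>
    cases p with
    | nil => exact hadj h1
    | cons h2 p =>
      rw [SimpleGraph.Walk.edges_cons, SimpleGraph.Walk.edges_cons, List.map_cons, List.map_cons,
        List.nodup_cons] at hp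
      apply hp.1
      have e1 := hcol _ ((SimpleGraph.mem_edgeSet G).mpr h1)
      have e2 := hcol _ ((SimpleGraph.mem_edgeSet G).mpr h2)
      rw [List.mem_cons]
      left
      omega

lemma nb_card {V : Type} [Fintype V] [DecidableEq V] (G : SimpleGraph V) [DecidableRel G.Adj]
    (u : V) : (Pool.Agent.Helper208.Rainbow.nb G u).card = G.degree u := by
  rw [← SimpleGraph.card_neighborFinset_eq_degree]
  congr 1
  ext w
  simp [Pool.Agent.Helper208.Rainbow.nb]

lemma t_eq {V : Type} [Fintype V] [DecidableEq V] (G : SimpleGraph V) [DecidableRel G.Adj]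
    (u v : V) : (G.commonNeighbors u v).ncard = Pool.Agent.Helper208.Rainbow.t G u v := by
  unfold Pool.Agent.Helper208.Rainbow.t
  rw [← Set.ncard_coe_finset]
  congr 1
  ext w
  simp [SimpleGraph.mem_commonNeighbors, Pool.Agent.Helper208.Rainbow.W]

lemma rc_of_col {V : Type} [Fintype V] (G : SimpleGraph V) (hG : G ≠ ⊤)
    (h : ∃ col : Sym2 V → Bool, ∀ u v, u ≠ v → ¬ G.Adj u v →
      ∃ w, G.Adj u w ∧ G.Adj v w ∧ col s(u, w) ≠ col s(v, w)) : rc G = 2 := by
  obtain ⟨col, hcol⟩ := h
  exact le_antisymm (Nat.sInf_le (upper G col hcol))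
    (le_csInf ⟨2, upper G col hcol⟩ (fun k hk => lower G hG k hk))

lemma nonempty_of_ne_top {V : Type} (G : SimpleGraph V) (hG : G ≠ ⊤) : Nonempty V := by
  by_contra hcon
  rw [not_nonempty_iff] at hcon
  apply hG
  ext u
  exact (hcon.false u).elim

lemma codeg_of_excess {V : Type} [Fintype V] [DecidableEq V] (G : SimpleGraph V)
    [DecidableRel G.Adj] (a : ℕ) (hmin : Fintype.card V + a ≤ 2 * G.minDegree)
    (u v : V) (huv : u ≠ v) (hadj : ¬ G.Adj u v) :
    a + 2 ≤ Pool.Agent.Helper208.Rainbow.t G u v := by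
  have hdeg : ∀ u, Fintype.card V + a ≤ 2 * (Pool.Agent.Helper208.Rainbow.nb G u).card := by
    intro u
    rw [nb_card]
    have := G.minDegree_le_degree u
    omega
  have h1 := card_union_add_card_inter (Pool.Agent.Helper208.Rainbow.nb G u)
    (Pool.Agent.Helper208.Rainbow.nb G v)
  rw [← Pool.Agent.Helper208.Rainbow.W_eq] at h1
  have h2 := hdeg u
  have h3 := hdeg v
  have h4 : (Pool.Agent.Helper208.Rainbow.nb G u ∪ Pool.Agent.Helper208.Rainbow.nb G v) ⊆
      (univ.erase u).erase v := by
    intro w hw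
    rw [mem_union, Pool.Agent.Helper208.Rainbow.mem_nb, Pool.Agent.Helper208.Rainbow.mem_nb] at hw
    rw [mem_erase, mem_erase]
    refine ⟨?_, ?_, mem_univ _⟩
    · rintro rfl
      rcases hw with hw | hw
      · exact hadj hw
      · exact G.irrefl hw
    · rintro rfl
      rcases hw with hw | hw
      · exact G.irrefl hw
      · exact hadj hw.symm
  have h5 := card_le_card h4
  rw [card_erase_of_mem (by simp [huv.symm]), card_erase_of_mem (mem_univ _), card_univ] at h5
  have h6 : 1 < Fintype.card V := Fintype.one_lt_card_iff.mpr ⟨u, v, huv⟩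
  unfold Pool.Agent.Helper208.Rainbow.t
  omega


lemma hdeg_of_min {V : Type} [Fintype V] [DecidableEq V] (G : SimpleGraph V) [DecidableRel G.Adj]
    (hmin : Fintype.card V ≤ 2 * G.minDegree) :
    ∀ u, Fintype.card V ≤ 2 * (Pool.Agent.Helper208.Rainbow.nb G u).card := by
  intro u
  rw [nb_card]
  have := G.minDegree_le_degree u
  omega

theorem codegree25 {V : Type} [Fintype V] (G : SimpleGraph V) [DecidableRel G.Adj] (hG : G ≠ ⊤)
    (hmin : Fintype.card V ≤ 2 * G.minDegree)
    (hco : ∀ u v : V, u ≠ v → ¬ G.Adj u v → 25 ≤ (G.commonNeighbors u v).ncard) : rc G = 2 := by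
  classical
  haveI := nonempty_of_ne_top G hG
  apply rc_of_col G hG
  apply Pool.Agent.T9h97.RB.main25 (G := G) (hdeg_of_min G hmin)
  intro u v huv hadj
  rw [← t_eq]
  exact hco u v huv hadj

theorem excess23 {V : Type} [Fintype V] (G : SimpleGraph V) [DecidableRel G.Adj] (hG : G ≠ ⊤)
    (hmin : (Fintype.card V : ℝ) / 2 + 23 / 2 ≤ G.minDegree) : rc G = 2 := by
  classical
  have hminN : Fintype.card V + 23 ≤ 2 * G.minDegree := by
    have h1 : (Fintype.card V : ℝ) + 23 ≤ 2 * G.minDegree := by linarith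
    exact_mod_cast h1
  haveI := nonempty_of_ne_top G hG
  apply rc_of_col G hG
  apply Pool.Agent.T9h97.RB.main25 (G := G) (hdeg_of_min G (by omega))
  intro u v huv hadj
  exact codeg_of_excess G 23 hminN u v huv hadj

theorem structure3 {V : Type} [Fintype V] (G : SimpleGraph V) [DecidableRel G.Adj] (hG : G ≠ ⊤)
    (hmin : Fintype.card V ≤ 2 * G.minDegree)
    (h3 : ∀ u v : V, u ≠ v → ¬ G.Adj u v → 3 ≤ (G.commonNeighbors u v).ncard)
    (hcase : (∃ f : V → Bool, ∀ u v : V, u ≠ v → ¬ G.Adj u v →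
          (G.commonNeighbors u v).ncard < 2 ^ 110 → f u ≠ f v) ∨
        (∃ (x : V) (s : ℕ), 1 ≤ s ∧ 2 ^ 110 * s ≤
          {y : V | y ≠ x ∧ ¬ G.Adj x y ∧ (G.commonNeighbors x y).ncard ≤ s}.ncard) ∨
        2 ^ 110 * {p : V × V | p.1 ≠ p.2 ∧ ¬ G.Adj p.1 p.2 ∧
          (G.commonNeighbors p.1 p.2).ncard < 2 ^ 110}.ncard < Fintype.card V) : rc G = 2 := by
  classical
  haveI := nonempty_of_ne_top G hG
  have h3' : ∀ u v : V, u ≠ v → ¬ G.Adj u v → 3 ≤ Pool.Agent.Helper208.Rainbow.t G u v := by
    intro u v huv hadj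
    rw [← t_eq]
    exact h3 u v huv hadj
  apply rc_of_col G hG
  have hd := hdeg_of_min G hmin
  have hbip : ∃ f : V → Bool, ∀ u v, u ≠ v → ¬ G.Adj u v →
      Pool.Agent.Helper208.Rainbow.t G u v < 2 ^ 100 → f u ≠ f v := by
    rcases hcase with h | ⟨x, s, hs, h⟩ | h
    · obtain ⟨f, hf⟩ := h
      refine ⟨f, fun u v huv hadj ht => hf u v huv hadj ?_⟩
      rw [t_eq]
      exact lt_of_lt_of_le ht (Nat.pow_le_pow_right (by norm_num) (by norm_num))
    · apply Pool.Agent.T9h97.RB.low_bip_of_many hd (2 ^ 100) (by norm_num) x s hs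
      have h1 : {y : V | y ≠ x ∧ ¬ G.Adj x y ∧ (G.commonNeighbors x y).ncard ≤ s}.ncard =
          (Pool.Agent.Helper208.Rainbow.DD G x s).card := by
        rw [← Set.ncard_coe_finset]
        congr 1
        ext y
        simp [Pool.Agent.Helper208.Rainbow.DD, t_eq]
      rw [h1] at h
      refine le_trans ?_ h
      apply Nat.mul_le_mul_right
      norm_num
    · apply Pool.Agent.T9h97.RB.low_bip_of_few hd (2 ^ 100)
      refine lt_of_le_of_lt ?_ h
      apply Nat.mul_le_mul (by norm_num)
      rw [← Set.ncard_coe_finset]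
      apply Set.ncard_le_ncard _ (Set.toFinite _)
      intro p hp
      simp only [coe_filter, mem_univ, true_and, Set.mem_setOf_eq] at hp ⊢
      refine ⟨hp.1, hp.2.1, ?_⟩
      rw [t_eq]
      exact lt_of_lt_of_le hp.2.2 (Nat.pow_le_pow_right (by norm_num) (by norm_num))
  obtain ⟨f, hf⟩ := hbip
  exact Pool.Agent.T9h97.RB.main3 (G := G) hd h3' f hf

end Pool.Agent.T9h97.RB.RC
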