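import Mathlib
import Pool.Agent.T9h97.RB.Col

set_option autoImplicit false

open Finset

namespace Pool.Agent.T9h97.RB

open Pool.Agent.Helper208.Rainbow

/-- numerical condition, version with the number of neighbouring events counted at the vertices -/
def Par3 (k m q : ℕ) (lam Dl D : ℝ) : Prop :=
    1 < lam ∧ lam ≤ 11 / 10 ∧ (2 * ((q : ℝ) - 1) / q ^ 2) * lam < 1 ∧
    (1 - 2 * ((q : ℝ) - 1) / q ^ 2) * lam < 1 ∧
    11 / 10 * ((k + 2) / k) * (Dl * (k * ((2 * ((q : ℝ) - 1) / q ^ 2) * lam) ^ k +
        ((2 * ((q : ℝ) - 1) / q ^ 2) * lam) ^ (k + 1) / (1 - (2 * ((q : ℝ) - 1) / q ^ 2) * lam)) +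
      D * (m * ((1 - 2 * ((q : ℝ) - 1) / q ^ 2) * lam) ^ m +
        ((1 - 2 * ((q : ℝ) - 1) / q ^ 2) * lam) ^ (m + 1) /
          (1 - (1 - 2 * ((q : ℝ) - 1) / q ^ 2) * lam))) ≤ 1 - 1 / lam

lemma exp_le_one_sub (x : ℝ) (h0 : 0 ≤ x) (h1 : x ≤ 1 / 12) :
    Real.exp (-(11 / 10 * x)) ≤ 1 - x := by
  have h5 : Real.exp (-(11 / 10 * x)) ≤ (1 + 11 / 10 * x)⁻¹ := by
    rw [Real.exp_neg]
    apply inv_anti₀ (by linarith)
    linarith [Real.add_one_le_exp (11 / 10 * x)]
  refine le_trans h5 ?_
  rw [inv_le_comm₀ (by linarith) (by linarith)]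
  rw [← one_div, div_le_iff₀ (by linarith)]
  nlinarith

lemma sum_biUnion_le' {ι β : Type} [DecidableEq ι] [DecidableEq β] (T : Finset ι)
    (g : ι → Finset β) (w : β → ℝ) (hw : ∀ b, 0 ≤ w b) :
    ∑ j ∈ T.biUnion g, w j ≤ ∑ a ∈ T, ∑ j ∈ g a, w j := by
  induction T using Finset.induction_on with
  | empty => simp
  | @insert k S' hk ih =>
    rw [biUnion_insert, sum_insert hk]
    refine le_trans ?_ (add_le_add_right ih _)
    rw [← sum_union_inter]
    have : 0 ≤ ∑ j ∈ (g k) ∩ (S'.biUnion g), w j := sum_nonneg fun j _ => hw j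
    linarith

section col

variable {V : Type} [Fintype V] [DecidableEq V] {G : SimpleGraph V} [DecidableRel G.Adj]

/-- weights of the neighbouring events -/
lemma nbr_sum (e : V ≃ Fin (Fintype.card V)) (S : ℕ) (r1 r2 : ℝ) (h1 : 0 ≤ r1) (h2 : 0 ≤ r2)
    (Z0 : ℝ) (hZ : ∀ x, ∑ y, XS G S r1 r2 x y ≤ Z0) (p : V × V) :
    ∑ j ∈ univ.filter (fun j => j ≠ p ∧ ¬ Disjoint (FO G e p) (FO G e j)), XO G e S r1 r2 j ≤
      (t G p.1 p.2 + 2) * Z0 := by
  classical
  have hnn := XO_nonneg (G := G) e S r1 r2 h1 h2
  have hZ0 : 0 ≤ Z0 := le_trans (sum_nonneg fun y _ => XS_nonneg S r1 r2 h1 h2 p.1 y) (hZ p.1)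
  set T : Finset V := insert p.1 (insert p.2 (W G p.1 p.2)) with hT
  have hTc : (T.card : ℝ) ≤ t G p.1 p.2 + 2 := by
    have h3 : T.card ≤ t G p.1 p.2 + 2 := by
      have h4 := card_insert_le p.1 (insert p.2 (W G p.1 p.2))
      have h5 := card_insert_le p.2 (W G p.1 p.2)
      have h6 : (W G p.1 p.2).card = t G p.1 p.2 := rfl
      rw [← hT] at h4
      omega
    exact_mod_cast h3
  have hFo : ∀ j d, d ∈ FO G e j → d ∈ FF G j := by
    intro j d hd
    unfold FO at hd
    split_ifs at hd
    · exact hd
    · simp at hd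
  have hsub : univ.filter (fun j => j ≠ p ∧ ¬ Disjoint (FO G e p) (FO G e j)) ⊆
      T.biUnion (fun a => (univ.image (fun y => ((a, y) : V × V))) ∪
        (univ.image (fun y => ((y, a) : V × V)))) := by
    rintro ⟨x, y⟩ hj
    rw [mem_filter, not_disjoint_iff] at hj
    obtain ⟨-, -, d, hd1, hd2⟩ := hj
    have hd1' := hFo _ _ hd1
    have hd2' := hFo _ _ hd2
    unfold FF at hd1' hd2'
    split_ifs at hd1' with hc1
    · split_ifs at hd2' with hc2
      · -- the endpoints of `d` lie in `T`, and `x` or `y` is an endpoint of `d`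
        have hend : ∀ z, z ∈ d → z ∈ T := by
          intro z hz
          simp only [mem_union, mem_image] at hd1'
          rw [hT, mem_insert, mem_insert]
          rcases hd1' with ⟨w, hw, rfl⟩ | ⟨w, hw, rfl⟩
          · rw [Sym2.mem_iff] at hz
            rcases hz with rfl | rfl
            · left; rfl
            · right; right; exact hw
          · rw [Sym2.mem_iff] at hz
            rcases hz with rfl | rfl
            · right; left; rfl
            · right; right; exact hw
        simp only [mem_union, mem_image] at hd2'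
        rw [mem_biUnion]
        rcases hd2' with ⟨w, -, hw⟩ | ⟨w, -, hw⟩
        · refine ⟨x, hend x ?_, ?_⟩
          · rw [← hw]; exact Sym2.mem_mk_left _ _
          · rw [mem_union]; left; rw [mem_image]; exact ⟨y, mem_univ _, rfl⟩
        · refine ⟨y, hend y ?_, ?_⟩
          · rw [← hw]; exact Sym2.mem_mk_left _ _
          · rw [mem_union]; right; rw [mem_image]; exact ⟨x, mem_univ _, rfl⟩
      · simp at hd2'
    · simp at hd1'
  have hl : ∀ c : V, ∑ p ∈ univ.image (fun y => ((c, y) : V × V)) ∪
      univ.image (fun y => ((y, c) : V × V)), XO G e S r1 r2 p ≤ Z0 := by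
    intro c
    have hun : ∀ A B : Finset (V × V), ∑ p ∈ A ∪ B, XO G e S r1 r2 p ≤
        ∑ p ∈ A, XO G e S r1 r2 p + ∑ p ∈ B, XO G e S r1 r2 p := by
      intro A B
      rw [← sum_union_inter]
      have : 0 ≤ ∑ p ∈ A ∩ B, XO G e S r1 r2 p := sum_nonneg fun p _ => hnn p
      linarith
    refine le_trans (hun _ _) ?_
    rw [sum_image (by intro x _ y _ h; simpa using h),
      sum_image (by intro x _ y _ h; simpa using h), ← sum_add_distrib]
    refine le_trans (sum_le_sum ?_) (hZ c)
    intro y _
    unfold XO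
    simp only
    have h0 := XS_nonneg (G := G) S r1 r2 h1 h2 c y
    rcases lt_trichotomy (e c) (e y) with h | h | h
    · rw [if_pos h, if_neg (not_lt.mpr h.le)]
      linarith
    · rw [h, if_neg (lt_irrefl _), if_neg (lt_irrefl _)]
      linarith
    · rw [if_neg (not_lt.mpr h.le), if_pos h, XS_symm S r1 r2 y c]
      linarith
  calc ∑ j ∈ univ.filter (fun j => j ≠ p ∧ ¬ Disjoint (FO G e p) (FO G e j)), XO G e S r1 r2 j
      ≤ ∑ j ∈ T.biUnion (fun a => (univ.image (fun y => ((a, y) : V × V))) ∪
        (univ.image (fun y => ((y, a) : V × V)))), XO G e S r1 r2 j :=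
        sum_le_sum_of_subset_of_nonneg hsub (fun j _ _ => hnn j)
    _ ≤ ∑ a ∈ T, ∑ j ∈ (univ.image (fun y => ((a, y) : V × V))) ∪
        (univ.image (fun y => ((y, a) : V × V))), XO G e S r1 r2 j :=
        sum_biUnion_le' T _ _ hnn
    _ ≤ ∑ a ∈ T, Z0 := sum_le_sum fun a _ => hl a
    _ = T.card * Z0 := by rw [sum_const, nsmul_eq_mul]
    _ ≤ _ := mul_le_mul_of_nonneg_right hTc hZ0

end col

theorem col3 (hsum : S_Sum) (V : Type) [Fintype V] [DecidableEq V] [Nonempty V]
    (G : SimpleGraph V) [DecidableRel G.Adj] (f : V → Bool) (S k m q : ℕ) (lam Dl D : ℝ)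
    (hq : 2 ≤ q) (hf : ∀ u v, u ≠ v → ¬ G.Adj u v → t G u v < S → f u ≠ f v)
    (hk1 : 1 ≤ k) (hm1 : 1 ≤ m) (hmS : m ≤ S) (hk : ∀ u v, u ≠ v → ¬ G.Adj u v → k ≤ t G u v)
    (hDl : ∀ x s, 1 ≤ s → (((DD G x s).filter (fun y => t G x y < S)).card : ℝ) ≤ Dl * s)
    (hD : ∀ x s, 1 ≤ s → ((DD G x s).card : ℝ) ≤ D * s) (hPar : Par3 k m q lam Dl D) :
    ∃ col : Sym2 V → Bool, ∀ u v, u ≠ v → ¬ G.Adj u v →
      ∃ w, G.Adj u w ∧ G.Adj v w ∧ col s(u, w) ≠ col s(v, w) := by
  classical
  obtain ⟨hl1, hl2, hr1, hr2, hnum⟩ := hPar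
  haveI : NeZero q := ⟨by omega⟩
  have hqR : (2 : ℝ) ≤ q := by exact_mod_cast hq
  have hq0 : (0 : ℝ) < q := by linarith
  set ρ : ℝ := 2 * ((q : ℝ) - 1) / q ^ 2 with hρ
  have hρ0 : 0 ≤ ρ := by
    rw [hρ]
    apply div_nonneg (by linarith) (by positivity)
  have hρ1 : ρ ≤ 1 / 2 := by
    rw [hρ, div_le_div_iff₀ (by positivity) (by norm_num)]
    nlinarith [sq_nonneg ((q : ℝ) - 2)]
  have hlam0 : 0 < lam := by linarith
  set r1 := ρ * lam with hr1d
  set r2 := (1 - ρ) * lam with hr2d
  have h1 : 0 ≤ r1 := by positivity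
  have h2 : 0 ≤ r2 := mul_nonneg (by linarith) hlam0.le
  have hD0 : 0 ≤ D := by
    have h3 := hD (Classical.arbitrary V) 1 le_rfl
    have h4 : (0 : ℝ) ≤ ((DD G (Classical.arbitrary V) 1).card : ℝ) := by positivity
    simp only [Nat.cast_one, mul_one] at h3
    linarith
  have hDl0 : 0 ≤ Dl := by
    have h3 := hDl (Classical.arbitrary V) 1 le_rfl
    have h4 : (0 : ℝ) ≤ (((DD G (Classical.arbitrary V) 1).filter
      (fun y => t G (Classical.arbitrary V) y < S)).card : ℝ) := by positivity
    simp only [Nat.cast_one, mul_one] at h3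
    linarith
  set Z0 : ℝ := Dl * (k * r1 ^ k + r1 ^ (k + 1) / (1 - r1)) +
      D * (m * r2 ^ m + r2 ^ (m + 1) / (1 - r2)) with hZ0
  have hZ := vertex_sum (G := G) hsum S k m Dl D r1 r2 hDl0 hD0 h1 hr1 h2 hr2 hk1 hm1 hmS hk hDl hD
  rw [← hZ0] at hZ
  have hkR : (1 : ℝ) ≤ k := by exact_mod_cast hk1
  have hZ00 : 0 ≤ Z0 := le_trans (sum_nonneg fun y _ =>
    XS_nonneg S r1 r2 h1 h2 (Classical.arbitrary V) y) (hZ (Classical.arbitrary V))
  have hfac : 11 / 10 * Z0 ≤ 11 / 10 * (((k : ℝ) + 2) / k) * Z0 := by
    apply mul_le_mul_of_nonneg_right _ hZ00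
    have : 1 ≤ ((k : ℝ) + 2) / k := by
      rw [le_div_iff₀ (by linarith)]; linarith
    linarith
  have hlaminv : 1 - 1 / lam ≤ 1 / 11 := by
    have : 10 / 11 ≤ 1 / lam := by
      rw [div_le_div_iff₀ (by norm_num) hlam0]
      linarith
    linarith
  have hXle : ∀ x y, XS G S r1 r2 x y ≤ 1 / 12 := by
    intro x y
    have h3 : XS G S r1 r2 x y ≤ Z0 := by
      refine le_trans ?_ (hZ x)
      exact single_le_sum (f := fun y => XS G S r1 r2 x y)
        (fun y _ => XS_nonneg S r1 r2 h1 h2 x y) (mem_univ y)
    linarith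
  set e := Fintype.equivFin V with he
  obtain ⟨ω, hω⟩ := lll (κ := Sym2 V) (α := Fin q) (univ : Finset (V × V)) (EO G e f q) (FO G e)
    (EO_dep e f q) (XO G e S r1 r2) (XO_nonneg e S r1 r2 h1 h2) (by
      intro p
      unfold XO
      split_ifs
      · have := hXle p.1 p.2
        linarith
      · norm_num) (by
      intro p _
      by_cases hlt : e p.1 < e p.2
      · by_cases hc : p.1 ≠ p.2 ∧ ¬ G.Adj p.1 p.2
        · have hcard := EV_card f q p hc
          have hkT := hk p.1 p.2 hc.1 hc.2
          have hnbr := nbr_sum (G := G) e S r1 r2 h1 h2 Z0 hZ p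
          set T := t G p.1 p.2 with hT
          have hEO : EO G e f q p = EV G f q p := by
            unfold EO; rw [if_pos hlt]
          have hXO : XO G e S r1 r2 p = if T < S then r1 ^ T else r2 ^ T := by
            unfold XO XS
            rw [if_pos hlt, if_pos hc]
          rw [hEO, hXO]
          have hcardR : ((EV G f q p).card : ℝ) * ((q : ℝ) ^ 2) ^ T =
              ((RR q (f p.1) (f p.2)).card : ℝ) ^ T * Fintype.card (Sym2 V → Fin q) := by
            exact_mod_cast hcard
          have h3 : ((EV G f q p).card : ℝ) =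
              (((RR q (f p.1) (f p.2)).card : ℝ) / (q : ℝ) ^ 2) ^ T *
                Fintype.card (Sym2 V → Fin q) := by
            rw [div_pow, div_mul_eq_mul_div, ← hcardR, mul_div_assoc, div_self (by positivity),
              mul_one]
          rw [h3]
          apply mul_le_mul_of_nonneg_right _ (by positivity)
          -- probability of coincidence
          have hq1 : ((q - 1 : ℕ) : ℝ) = (q : ℝ) - 1 := by
            rw [Nat.cast_sub (by omega)]; simp
          set R := (((RR q (f p.1) (f p.2)).card : ℝ) / (q : ℝ) ^ 2) with hR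
          have hR0 : 0 ≤ R := by positivity
          have hRr : R * lam ≤ if T < S then r1 else r2 := by
            by_cases hff : f p.1 = f p.2
            · have hnlt : ¬ T < S := fun hTS => hf p.1 p.2 hc.1 hc.2 hTS hff
              rw [if_neg hnlt, hr2d]
              apply mul_le_mul_of_nonneg_right _ hlam0.le
              have h4 := RR_eq q (f p.2)
              rw [← hff] at h4
              have h5 : ((RR q (f p.1) (f p.1)).card : ℝ) + 2 * ((q : ℝ) - 1) = (q : ℝ) ^ 2 := by
                rw [← hq1]; exact_mod_cast h4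
              rw [hR, hρ, ← hff, div_le_iff₀ (by positivity), sub_mul,
                div_mul_cancel₀ _ (by positivity)]
              linarith
            · have h4 := RR_ne q hff
              have h5 : ((RR q (f p.1) (f p.2)).card : ℝ) = 2 * ((q : ℝ) - 1) := by
                rw [← hq1]; exact_mod_cast h4
              have h6 : R = ρ := by rw [hR, hρ, h5]
              rw [h6]
              split_ifs
              · exact le_rfl
              · rw [hr2d]
                apply mul_le_mul_of_nonneg_right _ hlam0.le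
                linarith
          have hXT : (R * lam) ^ T ≤ if T < S then r1 ^ T else r2 ^ T := by
            split_ifs at hRr ⊢ with hTS
            · exact pow_le_pow_left₀ (by positivity) hRr T
            · exact pow_le_pow_left₀ (by positivity) hRr T
          have hexp : (1 / lam) ^ T ≤ ∏ j ∈ univ.filter
              (fun j => j ≠ p ∧ ¬ Disjoint (FO G e p) (FO G e j)), (1 - XO G e S r1 r2 j) := by
            have h5 : 1 / lam ≤ Real.exp (-(11 / 10 * (((k : ℝ) + 2) / k) * Z0)) := by
              have := Real.add_one_le_exp (-(11 / 10 * (((k : ℝ) + 2) / k) * Z0))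
              linarith
            have h7 : ((T : ℝ) + 2) ≤ T * (((k : ℝ) + 2) / k) := by
              have hkTR : (k : ℝ) ≤ T := by exact_mod_cast hkT
              rw [mul_div_assoc', le_div_iff₀ (by linarith)]
              nlinarith
            have h8 : ((T : ℝ) + 2) * Z0 ≤ T * (((k : ℝ) + 2) / k) * Z0 :=
              mul_le_mul_of_nonneg_right h7 hZ00
            calc (1 / lam) ^ T ≤ (Real.exp (-(11 / 10 * (((k : ℝ) + 2) / k) * Z0))) ^ T :=
                  pow_le_pow_left₀ (by positivity) h5 T
              _ = Real.exp (T * (-(11 / 10 * (((k : ℝ) + 2) / k) * Z0))) := by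
                  rw [← Real.exp_nat_mul]
              _ ≤ Real.exp (∑ j ∈ univ.filter
                  (fun j => j ≠ p ∧ ¬ Disjoint (FO G e p) (FO G e j)),
                  -(11 / 10 * XO G e S r1 r2 j)) := by
                  apply Real.exp_le_exp.mpr
                  rw [sum_neg_distrib, ← mul_sum]
                  have h9 := le_trans hnbr h8
                  linarith
              _ = ∏ j ∈ univ.filter (fun j => j ≠ p ∧ ¬ Disjoint (FO G e p) (FO G e j)),
                  Real.exp (-(11 / 10 * XO G e S r1 r2 j)) := Real.exp_sum _ _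
              _ ≤ _ := by
                  apply prod_le_prod (fun j _ => (Real.exp_pos _).le)
                  intro j _
                  apply exp_le_one_sub _ (XO_nonneg e S r1 r2 h1 h2 j)
                  unfold XO
                  split_ifs
                  · exact hXle _ _
                  · norm_num
          calc R ^ T = (R * lam) ^ T * (1 / lam) ^ T := by
                rw [← mul_pow]
                congr 1
                field_simp
            _ ≤ _ := by
                apply mul_le_mul hXT hexp (by positivity)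
                split_ifs <;> positivity
        · have hEV : EO G e f q p = ∅ := by
            unfold EO EV
            rw [if_neg hc]
            simp
          rw [hEV]
          simp only [card_empty, Nat.cast_zero]
          have h5 := XO_nonneg (G := G) e S r1 r2 h1 h2 p
          have h6 : 0 ≤ ∏ j ∈ univ.filter
              (fun j => j ≠ p ∧ ¬ Disjoint (FO G e p) (FO G e j)), (1 - XO G e S r1 r2 j) := by
            apply prod_nonneg
            intro j _
            have : XO G e S r1 r2 j ≤ 1 / 12 := by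
              unfold XO
              split_ifs
              · exact hXle _ _
              · norm_num
            linarith
          positivity
      · have hEV : EO G e f q p = ∅ := by
          unfold EO
          rw [if_neg hlt]
        rw [hEV]
        simp only [card_empty, Nat.cast_zero]
        have h5 := XO_nonneg (G := G) e S r1 r2 h1 h2 p
        have h6 : 0 ≤ ∏ j ∈ univ.filter
            (fun j => j ≠ p ∧ ¬ Disjoint (FO G e p) (FO G e j)), (1 - XO G e S r1 r2 j) := by
          apply prod_nonneg
          intro j _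
          have : XO G e S r1 r2 j ≤ 1 / 12 := by
            unfold XO
            split_ifs
            · exact hXle _ _
            · norm_num
          linarith
        positivity)
  exact col_of_omega f q (fun u v huv hadj => by
    rcases lt_trichotomy (e u) (e v) with h | h | h
    · left
      have h0 := hω (u, v) (mem_univ _)
      unfold EO at h0
      rwa [if_pos h] at h0
    · exact absurd (e.injective h) huv
    · right
      have h0 := hω (v, u) (mem_univ _)
      unfold EO at h0
      rwa [if_pos h] at h0)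

end Pool.Agent.T9h97.RB
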