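import Mathlib
import Pool.Agent.T9h73.RB.LLL

set_option autoImplicit false

open Finset

namespace Pool.Agent.T9h97.RB

/-- summation by parts, affine counting bound (after helper73's `s_sum`) -/
theorem sum_affine (V : Type) [DecidableEq V] (N : Finset V) (τ : V → ℕ) (k : ℕ) (A B r : ℝ)
    (hr : 0 ≤ r) (hr1 : r < 1) (hk : ∀ y ∈ N, k ≤ τ y)
    (hcard : ∀ s, k ≤ s → ((N.filter (fun y => τ y ≤ s)).card : ℝ) ≤ A + B * ((s : ℝ) - k)) :
    ∑ y ∈ N, r ^ (τ y) ≤ A * r ^ k + B * (r ^ (k + 1) / (1 - r)) := by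
  have h1r : 0 < 1 - r := by linarith
  have hA : HasSum (fun s => ∑ y ∈ N, (if τ y ≤ s then r ^ s else 0))
      (∑ y ∈ N, r ^ (τ y) * (1 - r)⁻¹) := by
    refine hasSum_sum fun y _ => ?_
    refine Pool.Agent.T9h73.RB.hasSum_from (fun s => r ^ s) (τ y) _ ?_
    have h2 := (hasSum_geometric_of_lt_one hr hr1).mul_left (r ^ (τ y))
    have e : (fun n => r ^ (n + τ y)) = fun n => r ^ (τ y) * r ^ n := by
      funext n
      rw [pow_add]
      ring
    rw [e]
    exact h2
  have hB : HasSum (fun s : ℕ => if k ≤ s then (A + B * ((s : ℝ) - k)) * r ^ s else 0)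
      (B * r ^ k * (r / (1 - r) ^ 2) + A * r ^ k * (1 - r)⁻¹) := by
    refine Pool.Agent.T9h73.RB.hasSum_from (fun s : ℕ => (A + B * ((s : ℝ) - k)) * r ^ s) k _ ?_
    have h2 := (hasSum_coe_mul_geometric_of_norm_lt_one (r := r)
      (by rw [Real.norm_eq_abs, abs_of_nonneg hr]; exact hr1)).mul_left (B * r ^ k)
    have h3 := (hasSum_geometric_of_lt_one hr hr1).mul_left (A * r ^ k)
    have e : (fun n : ℕ => (A + B * (((n + k : ℕ) : ℝ) - k)) * r ^ (n + k)) =
        fun n : ℕ => B * r ^ k * (n * r ^ n) + A * r ^ k * r ^ n := by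
      funext n
      rw [pow_add]
      push_cast
      ring
    rw [e]
    exact h2.add h3
  have hle : ∀ s : ℕ, ∑ y ∈ N, (if τ y ≤ s then r ^ s else 0) ≤
      if k ≤ s then (A + B * ((s : ℝ) - k)) * r ^ s else 0 := by
    intro s
    split_ifs with hs
    · rw [← sum_filter, sum_const, nsmul_eq_mul]
      exact mul_le_mul_of_nonneg_right (hcard s hs) (pow_nonneg hr s)
    · refine le_of_eq (sum_eq_zero fun y hy => ?_)
      rw [if_neg]
      have := hk y hy
      omega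
  have h4 := hasSum_le hle hA hB
  rw [← sum_mul] at h4
  have h5 : ∑ y ∈ N, r ^ (τ y) = (∑ y ∈ N, r ^ (τ y)) * (1 - r)⁻¹ * (1 - r) := by
    field_simp
  rw [h5]
  calc (∑ y ∈ N, r ^ (τ y)) * (1 - r)⁻¹ * (1 - r) ≤
      (B * r ^ k * (r / (1 - r) ^ 2) + A * r ^ k * (1 - r)⁻¹) * (1 - r) :=
        mul_le_mul_of_nonneg_right h4 h1r.le
    _ = A * r ^ k + B * (r ^ (k + 1) / (1 - r)) := by
        rw [pow_succ]
        field_simp
        ring

end Pool.Agent.T9h97.RB
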