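import Mathlib
import Pool.Agent.T9h97.RB.Col3
import Pool.Agent.T9h97.RB.Sum2

set_option autoImplicit false

open Finset

namespace Pool.Agent.T9h97.RB

open Pool.Agent.Helper208.Rainbow

/-- the colouring lemma with the vertex weights as a hypothesis -/
theorem colCore (V : Type) [Fintype V] [DecidableEq V] [Nonempty V]
    (G : SimpleGraph V) [DecidableRel G.Adj] (f : V → Bool) (S k q : ℕ) (lam Z0 : ℝ)
    (hq : 2 ≤ q) (hf : ∀ u v, u ≠ v → ¬ G.Adj u v → t G u v < S → f u ≠ f v)
    (hk1 : 1 ≤ k) (hk : ∀ u v, u ≠ v → ¬ G.Adj u v → k ≤ t G u v)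
    (hl1 : 1 < lam) (hl2 : lam ≤ 11 / 10)
    (hZ : ∀ x, ∑ y, XS G S ((2 * ((q : ℝ) - 1) / q ^ 2) * lam)
      ((1 - 2 * ((q : ℝ) - 1) / q ^ 2) * lam) x y ≤ Z0)
    (hnum : 11 / 10 * (((k : ℝ) + 2) / k) * Z0 ≤ 1 - 1 / lam) :
    ∃ col : Sym2 V → Bool, ∀ u v, u ≠ v → ¬ G.Adj u v →
      ∃ w, G.Adj u w ∧ G.Adj v w ∧ col s(u, w) ≠ col s(v, w) := by
  classical
  haveI : NeZero q := ⟨by omega⟩
  have hqR : (2 : ℝ) ≤ q := by exact_mod_cast hq
  have hq0 : (0 : ℝ) < q := by linarith
  set ρ : ℝ := 2 * ((q : ℝ) - 1) / q ^ 2 with hρ
  have hρ0 : 0 ≤ ρ := by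
    rw [hρ]
    apply div_nonneg (by linarith) (by positivity)
  have hρ1 : ρ ≤ 1 / 2 := by
    rw [hρ, div_le_div_iff₀ (by positivity) (by norm_num)]
    nlinarith [sq_nonneg ((q : ℝ) - 2)]
  have hlam0 : 0 < lam := by linarith
  set r1 := ρ * lam with hr1d
  set r2 := (1 - ρ) * lam with hr2d
  have h1 : 0 ≤ r1 := by positivity
  have h2 : 0 ≤ r2 := mul_nonneg (by linarith) hlam0.le
  have hkR : (1 : ℝ) ≤ k := by exact_mod_cast hk1
  have hZ00 : 0 ≤ Z0 := le_trans (sum_nonneg fun y _ =>
    XS_nonneg S r1 r2 h1 h2 (Classical.arbitrary V) y) (hZ (Classical.arbitrary V))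
  have hfac : 11 / 10 * Z0 ≤ 11 / 10 * (((k : ℝ) + 2) / k) * Z0 := by
    apply mul_le_mul_of_nonneg_right _ hZ00
    have : 1 ≤ ((k : ℝ) + 2) / k := by
      rw [le_div_iff₀ (by linarith)]; linarith
    linarith
  have hlaminv : 1 - 1 / lam ≤ 1 / 11 := by
    have : 10 / 11 ≤ 1 / lam := by
      rw [div_le_div_iff₀ (by norm_num) hlam0]
      linarith
    linarith
  have hXle : ∀ x y, XS G S r1 r2 x y ≤ 1 / 12 := by
    intro x y
    have h3 : XS G S r1 r2 x y ≤ Z0 := by
      refine le_trans ?_ (hZ x)
      exact single_le_sum (f := fun y => XS G S r1 r2 x y)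
        (fun y _ => XS_nonneg S r1 r2 h1 h2 x y) (mem_univ y)
    linarith
  set e := Fintype.equivFin V with he
  obtain ⟨ω, hω⟩ := lll (κ := Sym2 V) (α := Fin q) (univ : Finset (V × V)) (EO G e f q) (FO G e)
    (EO_dep e f q) (XO G e S r1 r2) (XO_nonneg e S r1 r2 h1 h2) (by
      intro p
      unfold XO
      split_ifs
      · have := hXle p.1 p.2
        linarith
      · norm_num) (by
      intro p _
      by_cases hlt : e p.1 < e p.2
      · by_cases hc : p.1 ≠ p.2 ∧ ¬ G.Adj p.1 p.2
        · have hcard := EV_card f q p hc
          have hkT := hk p.1 p.2 hc.1 hc.2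
          have hnbr := nbr_sum (G := G) e S r1 r2 h1 h2 Z0 hZ p
          set T := t G p.1 p.2 with hT
          have hEO : EO G e f q p = EV G f q p := by
            unfold EO; rw [if_pos hlt]
          have hXO : XO G e S r1 r2 p = if T < S then r1 ^ T else r2 ^ T := by
            unfold XO XS
            rw [if_pos hlt, if_pos hc]
          rw [hEO, hXO]
          have hcardR : ((EV G f q p).card : ℝ) * ((q : ℝ) ^ 2) ^ T =
              ((RR q (f p.1) (f p.2)).card : ℝ) ^ T * Fintype.card (Sym2 V → Fin q) := by
            exact_mod_cast hcard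
          have h3 : ((EV G f q p).card : ℝ) =
              (((RR q (f p.1) (f p.2)).card : ℝ) / (q : ℝ) ^ 2) ^ T *
                Fintype.card (Sym2 V → Fin q) := by
            rw [div_pow, div_mul_eq_mul_div, ← hcardR, mul_div_assoc, div_self (by positivity),
              mul_one]
          rw [h3]
          apply mul_le_mul_of_nonneg_right _ (by positivity)
          -- probability of coincidence
          have hq1 : ((q - 1 : ℕ) : ℝ) = (q : ℝ) - 1 := by
            rw [Nat.cast_sub (by omega)]; simp
          set R := (((RR q (f p.1) (f p.2)).card : ℝ) / (q : ℝ) ^ 2) with hR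
          have hR0 : 0 ≤ R := by positivity
          have hRr : R * lam ≤ if T < S then r1 else r2 := by
            by_cases hff : f p.1 = f p.2
            · have hnlt : ¬ T < S := fun hTS => hf p.1 p.2 hc.1 hc.2 hTS hff
              rw [if_neg hnlt, hr2d]
              apply mul_le_mul_of_nonneg_right _ hlam0.le
              have h4 := RR_eq q (f p.2)
              rw [← hff] at h4
              have h5 : ((RR q (f p.1) (f p.1)).card : ℝ) + 2 * ((q : ℝ) - 1) = (q : ℝ) ^ 2 := by
                rw [← hq1]; exact_mod_cast h4
              rw [hR, hρ, ← hff, div_le_iff₀ (by positivity), sub_mul,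
                div_mul_cancel₀ _ (by positivity)]
              linarith
            · have h4 := RR_ne q hff
              have h5 : ((RR q (f p.1) (f p.2)).card : ℝ) = 2 * ((q : ℝ) - 1) := by
                rw [← hq1]; exact_mod_cast h4
              have h6 : R = ρ := by rw [hR, hρ, h5]
              rw [h6]
              split_ifs
              · exact le_rfl
              · rw [hr2d]
                apply mul_le_mul_of_nonneg_right _ hlam0.le
                linarith
          have hXT : (R * lam) ^ T ≤ if T < S then r1 ^ T else r2 ^ T := by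
            split_ifs at hRr ⊢ with hTS
            · exact pow_le_pow_left₀ (by positivity) hRr T
            · exact pow_le_pow_left₀ (by positivity) hRr T
          have hexp : (1 / lam) ^ T ≤ ∏ j ∈ univ.filter
              (fun j => j ≠ p ∧ ¬ Disjoint (FO G e p) (FO G e j)), (1 - XO G e S r1 r2 j) := by
            have h5 : 1 / lam ≤ Real.exp (-(11 / 10 * (((k : ℝ) + 2) / k) * Z0)) := by
              have := Real.add_one_le_exp (-(11 / 10 * (((k : ℝ) + 2) / k) * Z0))
              linarith
            have h7 : ((T : ℝ) + 2) ≤ T * (((k : ℝ) + 2) / k) := by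
              have hkTR : (k : ℝ) ≤ T := by exact_mod_cast hkT
              rw [mul_div_assoc', le_div_iff₀ (by linarith)]
              nlinarith
            have h8 : ((T : ℝ) + 2) * Z0 ≤ T * (((k : ℝ) + 2) / k) * Z0 :=
              mul_le_mul_of_nonneg_right h7 hZ00
            calc (1 / lam) ^ T ≤ (Real.exp (-(11 / 10 * (((k : ℝ) + 2) / k) * Z0))) ^ T :=
                  pow_le_pow_left₀ (by positivity) h5 T
              _ = Real.exp (T * (-(11 / 10 * (((k : ℝ) + 2) / k) * Z0))) := by
                  rw [← Real.exp_nat_mul]
              _ ≤ Real.exp (∑ j ∈ univ.filter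
                  (fun j => j ≠ p ∧ ¬ Disjoint (FO G e p) (FO G e j)),
                  -(11 / 10 * XO G e S r1 r2 j)) := by
                  apply Real.exp_le_exp.mpr
                  rw [sum_neg_distrib, ← mul_sum]
                  have h9 := le_trans hnbr h8
                  linarith
              _ = ∏ j ∈ univ.filter (fun j => j ≠ p ∧ ¬ Disjoint (FO G e p) (FO G e j)),
                  Real.exp (-(11 / 10 * XO G e S r1 r2 j)) := Real.exp_sum _ _
              _ ≤ _ := by
                  apply prod_le_prod (fun j _ => (Real.exp_pos _).le)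
                  intro j _
                  apply exp_le_one_sub _ (XO_nonneg e S r1 r2 h1 h2 j)
                  unfold XO
                  split_ifs
                  · exact hXle _ _
                  · norm_num
          calc R ^ T = (R * lam) ^ T * (1 / lam) ^ T := by
                rw [← mul_pow]
                congr 1
                field_simp
            _ ≤ _ := by
                apply mul_le_mul hXT hexp (by positivity)
                split_ifs <;> positivity
        · have hEV : EO G e f q p = ∅ := by
            unfold EO EV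
            rw [if_neg hc]
            simp
          rw [hEV]
          simp only [card_empty, Nat.cast_zero]
          have h5 := XO_nonneg (G := G) e S r1 r2 h1 h2 p
          have h6 : 0 ≤ ∏ j ∈ univ.filter
              (fun j => j ≠ p ∧ ¬ Disjoint (FO G e p) (FO G e j)), (1 - XO G e S r1 r2 j) := by
            apply prod_nonneg
            intro j _
            have : XO G e S r1 r2 j ≤ 1 / 12 := by
              unfold XO
              split_ifs
              · exact hXle _ _
              · norm_num
            linarith
          positivity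
      · have hEV : EO G e f q p = ∅ := by
          unfold EO
          rw [if_neg hlt]
        rw [hEV]
        simp only [card_empty, Nat.cast_zero]
        have h5 := XO_nonneg (G := G) e S r1 r2 h1 h2 p
        have h6 : 0 ≤ ∏ j ∈ univ.filter
            (fun j => j ≠ p ∧ ¬ Disjoint (FO G e p) (FO G e j)), (1 - XO G e S r1 r2 j) := by
          apply prod_nonneg
          intro j _
          have : XO G e S r1 r2 j ≤ 1 / 12 := by
            unfold XO
            split_ifs
            · exact hXle _ _
            · norm_num
          linarith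
        positivity)
  exact col_of_omega f q (fun u v huv hadj => by
    rcases lt_trichotomy (e u) (e v) with h | h | h
    · left
      have h0 := hω (u, v) (mem_univ _)
      unfold EO at h0
      rwa [if_pos h] at h0
    · exact absurd (e.injective h) huv
    · right
      have h0 := hω (v, u) (mem_univ _)
      unfold EO at h0
      rwa [if_pos h] at h0)

end Pool.Agent.T9h97.RB
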