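import Mathlib

set_option autoImplicit false

/-!
MP_85f9db_co, second round: a sharp version of the structure lemma (codegree at least 16, that is
`2 delta >= n + 14`).
-/

open Finset

namespace Pool.Agent.T9h97.RB

/-- (H) a graph that is not 2-colourable contains an odd cycle with distinct vertices, as a
periodic sequence.  (Mathlib: `SimpleGraph.two_colorable_iff_forall_loop_even`; take an odd closed
walk of minimal length and `c i = w.getVert (i % l)`; a repetition would split the walk into two
closed walks, one of which is odd and shorter.) -/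
def S_Cyc : Prop := ∀ (V : Type) (H : SimpleGraph V),
    (¬ ∃ f : V → Bool, ∀ u v, H.Adj u v → f u ≠ f v) →
    ∃ (l : ℕ) (c : ℕ → V), Odd l ∧ (∀ i, H.Adj (c i) (c (i + 1))) ∧ (∀ i, c (i + l) = c i) ∧
      (∀ i j, i < l → j < l → c i = c j → i = j)

/-- (J) the crossing lemma.  Proof: let `M = 2 D - kap - h >= 2 p`.  For every `z < p` the number
`c(z)` of `i < l` with `z < B i` satisfies `h * c(z) >= M - 2 z >= 2 p - 2 z`: if all `B i > z` then
`c(z) = l` and `l h >= 2 D`; otherwise take `i0 < l` with `B i0 <= z`; then `al i0 <= z + kap` or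
`al i0 >= 2 D - z`, and `al (i0 + l) = 2 D + kap - al i0` is on the other side.  In the first case
let `i1` be the last index of `[i0, i0 + l]` with `al <= z + kap` and `i2` the first index after it
with `al >= 2 D - z`; the indices strictly between have `z < B`, they are distinct modulo `l`, and
`2 D - 2 z - kap <= al i2 - al i1 <= h (i2 - i1)`; symmetric in the second case.
Summation over `z < p` gives `h * sum B >= p (p + 1)`. -/
def S_Seq : Prop := ∀ (l : ℕ) (al : ℕ → ℤ) (B : ℕ → ℕ) (D kap h : ℕ), 1 ≤ l → 1 ≤ h →
    (∀ i, al (i + l) = 2 * (D : ℤ) + kap - al i) → (∀ i, |al (i + 1) - al i| ≤ (h : ℤ)) →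
    (∀ i, B (i + l) = B i) →
    (∀ (i z : ℕ), (z : ℤ) + kap < al i → al i < 2 * (D : ℤ) - z → z < B i) →
    2 * D ≤ l * h → ∀ p : ℕ, 2 * p + kap + h ≤ 2 * D → p * p ≤ h * ∑ i ∈ range l, B i

end Pool.Agent.T9h97.RB
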