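import Mathlib
import Pool.Agent.Helper208.Rainbow.Main
import Pool.Agent.T9h97.RB.Spec2

set_option autoImplicit false

open Finset

namespace Pool.Agent.T9h97.RB

open Pool.Agent.Helper208.Rainbow

variable {V : Type} [Fintype V] [DecidableEq V] {G : SimpleGraph V} [DecidableRel G.Adj]

/-- the vertices that do not distinguish `u` and `v` -/
def Agr (G : SimpleGraph V) [DecidableRel G.Adj] (u v : V) : Finset V :=
  univ.filter (fun w => (G.Adj u w ↔ G.Adj v w))

lemma compl_union_kap {kap : ℕ} (hdeg : ∀ u, Fintype.card V + kap ≤ 2 * (nb G u).card) (u v : V) :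
    ((nb G u ∪ nb G v)ᶜ).card + kap ≤ t G u v := by
  have h1 := card_union_add_card_inter (nb G u) (nb G v)
  rw [← W_eq] at h1
  have h2 := hdeg u
  have h3 := hdeg v
  have h4 := card_compl (nb G u ∪ nb G v)
  have h5 : (nb G u ∪ nb G v).card ≤ Fintype.card V := card_le_univ _
  unfold t
  omega

lemma agr_card {kap : ℕ} (hdeg : ∀ u, Fintype.card V + kap ≤ 2 * (nb G u).card) (u v : V) :
    (Agr G u v).card + kap ≤ 2 * t G u v := by
  have h1 : Agr G u v ⊆ W G u v ∪ (nb G u ∪ nb G v)ᶜ := by
    intro w hw
    simp only [Agr, mem_filter, mem_univ, true_and] at hw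
    simp only [mem_union, W, mem_filter, mem_univ, true_and, mem_compl, mem_nb]
    tauto
  have h2 := card_le_card h1
  have h3 := card_union_le (W G u v) (nb G u ∪ nb G v)ᶜ
  have h4 := compl_union_kap hdeg u v
  have h5 : (W G u v).card = t G u v := rfl
  omega

/-- number of neighbours in `Y` -/
def av (G : SimpleGraph V) [DecidableRel G.Adj] (Y : Finset V) (u : V) : ℕ := (nb G u ∩ Y).card

lemma av_le (Y : Finset V) (u : V) : av G Y u ≤ Y.card := card_le_card inter_subset_right

lemma av_sum {kap S : ℕ} (hdeg : ∀ u, Fintype.card V + kap ≤ 2 * (nb G u).card) (Y : Finset V)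
    {u v : V} (h : t G u v ≤ S) :
    av G Y u + av G Y v ≤ Y.card + S ∧ Y.card + kap ≤ av G Y u + av G Y v + S := by
  have h1 := card_union_add_card_inter (nb G u ∩ Y) (nb G v ∩ Y)
  have h2 : (nb G u ∩ Y ∪ nb G v ∩ Y).card ≤ Y.card := by
    apply card_le_card
    intro x hx
    simp only [mem_union, mem_inter] at hx
    tauto
  have h3 : ((nb G u ∩ Y) ∩ (nb G v ∩ Y)).card ≤ t G u v := by
    unfold t
    rw [W_eq]
    apply card_le_card
    intro x hx
    simp only [mem_inter] at hx ⊢
    tauto
  have h4 : Y.card ≤ (nb G u ∩ Y ∪ nb G v ∩ Y).card + ((nb G u ∪ nb G v)ᶜ).card := by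
    refine le_trans (card_le_card ?_) (card_union_le _ _)
    intro x hx
    simp only [mem_union, mem_inter, mem_compl]
    tauto
  have h5 := compl_union_kap hdeg u v
  unfold av
  omega

/-- folded number of neighbours in `Y` -/
def bv (G : SimpleGraph V) [DecidableRel G.Adj] (Y : Finset V) (u : V) : ℕ :=
  min (av G Y u) (Y.card - av G Y u)

lemma bv_le (Y : Finset V) (x u : V) :
    bv G Y u ≤ (Y.filter (fun y => u ∈ Agr G x y)).card := by
  have h1 : (Y.filter (fun y => G.Adj y u)).card = av G Y u := by
    unfold av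
    congr 1
    ext y
    simp only [mem_filter, mem_inter, mem_nb, G.adj_comm]
    tauto
  have h2 := card_filter_add_card_filter_not (s := Y) (fun y => G.Adj y u)
  by_cases hx : G.Adj x u
  · have h3 : Y.filter (fun y => u ∈ Agr G x y) = Y.filter (fun y => G.Adj y u) := by
      ext y
      simp only [Agr, mem_filter, mem_univ, true_and]
      tauto
    rw [h3, h1]
    exact min_le_left _ _
  · have h3 : Y.filter (fun y => u ∈ Agr G x y) = Y.filter (fun y => ¬ G.Adj y u) := by
      ext y
      simp only [Agr, mem_filter, mem_univ, true_and]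
      tauto
    rw [h3]
    refine le_trans (min_le_right _ _) ?_
    omega

lemma bv_sum {kap s : ℕ} (hdeg : ∀ u, Fintype.card V + kap ≤ 2 * (nb G u).card) (x : V) :
    ∑ u, bv G (DD G x s) u + (DD G x s).card * (kap + 1) ≤ (DD G x s).card * (2 * s) := by
  set Y := DD G x s with hY
  have hYm : ∀ y ∈ Y, y ≠ x ∧ ¬ G.Adj x y ∧ t G x y ≤ s := by
    intro y hy
    rw [hY, DD, mem_filter] at hy
    exact hy.2
  have hbx : bv G Y x = 0 := by
    have : av G Y x = 0 := by
      unfold av
      rw [card_eq_zero, eq_empty_iff_forall_notMem]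
      intro y hy
      rw [mem_inter, mem_nb] at hy
      exact (hYm y hy.2).2.1 hy.1
    unfold bv
    omega
  have hcx : (Y.filter (fun y => x ∈ Agr G x y)).card = Y.card := by
    congr 1
    rw [filter_eq_self]
    intro y hy
    simp only [Agr, mem_filter, mem_univ, true_and]
    have h1 := (hYm y hy).2.1
    have h2 := G.irrefl (v := x)
    have h3 := G.adj_comm x y
    tauto
  have h1 : ∑ u, bv G Y u + Y.card ≤ ∑ u, (Y.filter (fun y => u ∈ Agr G x y)).card := by
    rw [← add_sum_erase univ _ (mem_univ x), ← add_sum_erase univ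
      (fun u => (Y.filter (fun y => u ∈ Agr G x y)).card) (mem_univ x)]
    rw [hbx, hcx]
    have := sum_le_sum (s := univ.erase x) (fun u (_ : u ∈ univ.erase x) => bv_le (G := G) Y x u)
    omega
  have h2 : ∑ u, (Y.filter (fun y => u ∈ Agr G x y)).card = ∑ y ∈ Y, (Agr G x y).card := by
    simp_rw [card_filter]
    rw [sum_comm]
    apply sum_congr rfl
    intro y _
    rw [← card_filter]
    congr 1
    ext u
    simp
  have h3 : ∑ y ∈ Y, ((Agr G x y).card + kap) ≤ ∑ y ∈ Y, 2 * s := by
    apply sum_le_sum
    intro y hy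
    refine le_trans (agr_card hdeg x y) ?_
    have := (hYm y hy).2.2
    omega
  rw [sum_add_distrib, sum_const, sum_const, smul_eq_mul, smul_eq_mul] at h3
  calc ∑ u, bv G Y u + Y.card * (kap + 1) = (∑ u, bv G Y u + Y.card) + Y.card * kap := by ring
    _ ≤ ∑ y ∈ Y, (Agr G x y).card + Y.card * kap := by
        rw [← h2]
        exact Nat.add_le_add_right h1 _
    _ ≤ Y.card * (2 * s) := h3

/-- sharp structure lemma -/
theorem growth (hcyc : S_Cyc) (hseq : S_Seq) {kap S : ℕ}
    (hdeg : ∀ u, Fintype.card V + kap ≤ 2 * (nb G u).card)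
    (hnb : ¬ ∃ f : V → Bool, ∀ u v, u ≠ v → ¬ G.Adj u v → t G u v ≤ S → f u ≠ f v)
    (x : V) (s : ℕ) (hs : kap + 1 ≤ 2 * s) :
    (DD G x s).card ≤ 2 * (2 * S - kap) * (2 * s - kap - 1) + 2 * S := by
  classical
  let H : SimpleGraph V :=
    { Adj := fun u v => u ≠ v ∧ ¬ G.Adj u v ∧ t G u v ≤ S
      symm := by
        constructor
        intro u v h
        refine ⟨h.1.symm, fun h' => h.2.1 h'.symm, ?_⟩
        rw [t_comm]; exact h.2.2
      loopless := by
        constructor
        intro u h
        exact h.1 rfl }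
  obtain ⟨l, c, hl, hadj, hper, hinj⟩ := hcyc V H (by
    rintro ⟨f, hf⟩
    exact hnb ⟨f, fun u v h1 h2 h3 => hf u v ⟨h1, h2, h3⟩⟩)
  set Y := DD G x s with hY
  set D := Y.card with hD
  have hadj' : ∀ i, c i ≠ c (i + 1) ∧ ¬ G.Adj (c i) (c (i + 1)) ∧ t G (c i) (c (i + 1)) ≤ S := hadj
  have hagr : ∀ i, (Agr G (c i) (c (i + 1))).card + kap ≤ 2 * S := by
    intro i
    have h1 := agr_card hdeg (c i) (c (i + 1))
    have h2 := (hadj' i).2.2
    omega
  have hagr1 : 1 ≤ (Agr G (c 0) (c 1)).card := by
    rw [Nat.one_le_iff_ne_zero, ← Nat.pos_iff_ne_zero, card_pos]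
    refine ⟨c 0, ?_⟩
    simp only [Agr, mem_filter, mem_univ, true_and]
    have h1 := (hadj' 0).2.1
    have h2 := G.irrefl (v := c 0)
    have h3 := G.adj_comm (c 0) (c 1)
    simp only [zero_add] at h1
    tauto
  set h := 2 * S - kap with hh
  have hh1 : 1 ≤ h := by
    have := hagr 0
    simp only [zero_add] at this
    omega
  have hhS : h + kap = 2 * S := by omega
  have hl1 : 1 ≤ l := hl.pos
  -- the sequence
  let al : ℕ → ℤ := fun i => if Even i then 2 * (av G Y (c i) : ℤ)
    else 2 * (D : ℤ) + kap - 2 * (av G Y (c i) : ℤ)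
  let B : ℕ → ℕ := fun i => 2 * bv G Y (c i)
  have hal1 : ∀ i, al (i + l) = 2 * (D : ℤ) + kap - al i := by
    intro i
    simp only [al, hper]
    rcases Nat.even_or_odd i with hi | hi
    · have h1 : ¬ Even (i + l) := by
        rw [Nat.not_even_iff_odd]; exact hi.add_odd hl
      rw [if_neg h1, if_pos hi]
    · have h1 : Even (i + l) := hi.add_odd hl
      rw [if_pos h1, if_neg (Nat.not_even_iff_odd.mpr hi)]
      ring
  have hal2 : ∀ i, |al (i + 1) - al i| ≤ (h : ℤ) := by
    intro i
    have h1 := av_sum hdeg Y (hadj' i).2.2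
    simp only [al]
    rw [abs_le]
    rcases Nat.even_or_odd i with hi | hi
    · have h2 : ¬ Even (i + 1) := by
        rw [Nat.not_even_iff_odd]; exact hi.add_one
      rw [if_neg h2, if_pos hi]
      constructor <;> omega
    · have h2 : Even (i + 1) := hi.add_one
      rw [if_pos h2, if_neg (Nat.not_even_iff_odd.mpr hi)]
      constructor <;> omega
  have hB1 : ∀ i, B (i + l) = B i := by
    intro i
    simp only [B, hper]
  have hB2 : ∀ (i z : ℕ), (z : ℤ) + kap < al i → al i < 2 * (D : ℤ) - z → z < B i := by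
    intro i z h1 h2
    simp only [al] at h1 h2
    simp only [B, bv]
    have h3 := av_le (G := G) Y (c i)
    split_ifs at h1 h2 with hi
    · omega
    · omega
  have hDn : 2 * D ≤ Fintype.card V := by
    have h1 : Y ⊆ (nb G x)ᶜ := by
      intro y hy
      rw [hY, DD, mem_filter] at hy
      rw [mem_compl, mem_nb]
      exact hy.2.2.1
    have h2 := card_le_card h1
    rw [card_compl] at h2
    have h3 := hdeg x
    omega
  have hln : Fintype.card V ≤ l * h := by
    have hcov : (univ : Finset V) ⊆ (range l).biUnion (fun i => Agr G (c i) (c (i + 1))) := by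
      intro w _
      by_contra hcon
      rw [mem_biUnion] at hcon
      push Not at hcon
      have halt : ∀ i, i ≤ l → ((G.Adj (c i) w) ↔ ((G.Adj (c 0) w) ↔ Even i)) := by
        intro i
        induction i with
        | zero => intro _; simp
        | succ i ih =>
          intro hi
          have h1 := ih (by omega)
          have h2 := hcon i (mem_range.mpr (by omega))
          simp only [Agr, mem_filter, mem_univ, true_and] at h2
          rw [Nat.even_add_one]
          tauto
      have h1 := halt l le_rfl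
      have h2 : c l = c 0 := by
        have := hper 0
        simpa using this
      rw [h2] at h1
      have h3 : ¬ Even l := Nat.not_even_iff_odd.mpr hl
      tauto
    calc Fintype.card V = (univ : Finset V).card := rfl
      _ ≤ ((range l).biUnion (fun i => Agr G (c i) (c (i + 1)))).card := card_le_card hcov
      _ ≤ ∑ i ∈ range l, (Agr G (c i) (c (i + 1))).card := card_biUnion_le
      _ ≤ ∑ i ∈ range l, h := by
          apply sum_le_sum
          intro i _
          have := hagr i
          omega
      _ = l * h := by rw [sum_const, card_range, smul_eq_mul]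
  have hBsum : ∑ i ∈ range l, B i ≤ 2 * ∑ u, bv G Y u := by
    simp only [B]
    rw [← mul_sum]
    apply Nat.mul_le_mul_left
    rw [← sum_image (g := c) (f := fun u => bv G Y u) (by
      intro i hi j hj hij
      exact hinj i j (by simpa using hi) (by simpa using hj) hij)]
    exact sum_le_sum_of_subset (subset_univ _)
  have hsum := bv_sum (s := s) hdeg x
  rw [← hY, ← hD] at hsum
  by_contra hcon
  push Not at hcon
  have hDS : S ≤ D := by
    have : 2 * S ≤ 2 * h * (2 * s - kap - 1) + 2 * S := Nat.le_add_left _ _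
    omega
  have hkey := hseq l al B D kap h hl1 hh1 hal1 hal2 hB1 hB2 (le_trans hDn hln) (D - S) (by omega)
  obtain ⟨p, hp⟩ := Nat.exists_eq_add_of_le hDS
  obtain ⟨g, hg⟩ := Nat.exists_eq_add_of_le hs
  have hg' : 2 * s - kap - 1 = g := by omega
  rw [hg'] at hcon
  have hp' : D - S = p := by omega
  rw [hp'] at hkey
  -- `sum bv ≤ D g`
  have h1 : ∑ u, bv G Y u ≤ D * g := by
    rw [hg] at hsum
    have h2 : D * (kap + 1 + g) = D * g + D * (kap + 1) := by ring
    omega
  have h2 : p * p ≤ h * (2 * (D * g)) := by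
    refine le_trans hkey (Nat.mul_le_mul_left _ (le_trans hBsum ?_))
    exact Nat.mul_le_mul_left _ h1
  -- contradiction
  have h3 : h * (2 * (D * g)) = D * (2 * h * g) := by ring
  rw [h3] at h2
  have h4 : 2 * h * g + S < p := by omega
  rw [hp] at h2
  have h5 : (S + p) * (2 * h * g) < p * p := by
    nlinarith
  omega

end Pool.Agent.T9h97.RB
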