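import Mathlib
import Pool.Agent.T9h97.RB.Core
import Pool.Agent.T9h97.RB.Growth
import Pool.Agent.T9h97.RB.Main

set_option autoImplicit false

open Finset

namespace Pool.Agent.T9h97.RB

open Pool.Agent.Helper208.Rainbow

section aff

variable {V : Type} [Fintype V] [DecidableEq V] {G : SimpleGraph V} [DecidableRel G.Adj]

lemma card_le_DD (x : V) (N : Finset V) (hN : ∀ y ∈ N, x ≠ y ∧ ¬ G.Adj x y) (s : ℕ) :
    ((N.filter (fun y => t G x y ≤ s)).card : ℝ) ≤ ((DD G x s).card : ℝ) := by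
  have : (N.filter (fun y => t G x y ≤ s)).card ≤ (DD G x s).card := by
    apply card_le_card
    intro y hy
    rw [mem_filter] at hy
    simp only [DD, mem_filter, mem_univ, true_and]
    exact ⟨(hN y hy.1).1.symm, (hN y hy.1).2, hy.2⟩
  exact_mod_cast this

/-- weights at a vertex, affine growth -/
lemma vertex_affine (S k m : ℕ) (A Am B r1 r2 : ℝ)
    (h1 : 0 ≤ r1) (h1' : r1 < 1) (h2 : 0 ≤ r2) (h2' : r2 < 1)
    (hmS : m ≤ S) (hk : ∀ u v, u ≠ v → ¬ G.Adj u v → k ≤ t G u v)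
    (hA : ∀ x s, k ≤ s → ((DD G x s).card : ℝ) ≤ A + B * ((s : ℝ) - k))
    (hAm : ∀ x s, m ≤ s → ((DD G x s).card : ℝ) ≤ Am + B * ((s : ℝ) - m)) (x : V) :
    ∑ y, XS G S r1 r2 x y ≤ (A * r1 ^ k + B * (r1 ^ (k + 1) / (1 - r1))) +
      (Am * r2 ^ m + B * (r2 ^ (m + 1) / (1 - r2))) := by
  classical
  have hN : ∑ y, XS G S r1 r2 x y =
      ∑ y ∈ univ.filter (fun y => x ≠ y ∧ ¬ G.Adj x y),
        (if t G x y < S then r1 ^ (t G x y) else r2 ^ (t G x y)) := by
    rw [sum_filter]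
    rfl
  rw [hN, ← sum_filter_add_sum_filter_not _ (fun y => t G x y < S)]
  apply add_le_add
  · calc ∑ y ∈ (univ.filter (fun y => x ≠ y ∧ ¬ G.Adj x y)).filter (fun y => t G x y < S),
        (if t G x y < S then r1 ^ (t G x y) else r2 ^ (t G x y))
        = ∑ y ∈ (univ.filter (fun y => x ≠ y ∧ ¬ G.Adj x y)).filter (fun y => t G x y < S),
          r1 ^ (t G x y) := by
          apply sum_congr rfl
          intro y hy
          rw [mem_filter] at hy
          rw [if_pos hy.2]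
      _ ≤ _ := by
          apply sum_affine V _ (fun y => t G x y) k A B r1 h1 h1'
          · intro y hy
            simp only [mem_filter, mem_univ, true_and] at hy
            exact hk x y hy.1.1 hy.1.2
          · intro s hs
            refine le_trans (card_le_DD x _ ?_ s) (hA x s hs)
            intro y hy
            simp only [mem_filter, mem_univ, true_and] at hy
            exact hy.1
  · calc ∑ y ∈ (univ.filter (fun y => x ≠ y ∧ ¬ G.Adj x y)).filter (fun y => ¬ t G x y < S),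
        (if t G x y < S then r1 ^ (t G x y) else r2 ^ (t G x y))
        = ∑ y ∈ (univ.filter (fun y => x ≠ y ∧ ¬ G.Adj x y)).filter (fun y => ¬ t G x y < S),
          r2 ^ (t G x y) := by
          apply sum_congr rfl
          intro y hy
          rw [mem_filter] at hy
          rw [if_neg hy.2]
      _ ≤ _ := by
          apply sum_affine V _ (fun y => t G x y) m Am B r2 h2 h2'
          · intro y hy
            simp only [mem_filter, mem_univ, true_and] at hy
            omega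
          · intro s hs
            refine le_trans (card_le_DD x _ ?_ s) (hAm x s hs)
            intro y hy
            simp only [mem_filter, mem_univ, true_and] at hy
            exact hy.1

/-- weights at a vertex, no low pairs -/
lemma vertex_unif (k : ℕ) (A B r1 r2 : ℝ) (h2 : 0 ≤ r2) (h2' : r2 < 1)
    (hk : ∀ u v, u ≠ v → ¬ G.Adj u v → k ≤ t G u v)
    (hA : ∀ x s, k ≤ s → ((DD G x s).card : ℝ) ≤ A + B * ((s : ℝ) - k)) (x : V) :
    ∑ y, XS G 0 r1 r2 x y ≤ A * r2 ^ k + B * (r2 ^ (k + 1) / (1 - r2)) := by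
  classical
  have hN : ∑ y, XS G 0 r1 r2 x y =
      ∑ y ∈ univ.filter (fun y => x ≠ y ∧ ¬ G.Adj x y), r2 ^ (t G x y) := by
    rw [sum_filter]
    apply sum_congr rfl
    intro y _
    unfold XS
    rw [if_neg (Nat.not_lt_zero _)]
  rw [hN]
  apply sum_affine V _ (fun y => t G x y) k A B r2 h2 h2'
  · intro y hy
    simp only [mem_filter, mem_univ, true_and] at hy
    exact hk x y hy.1 hy.2
  · intro s hs
    refine le_trans (card_le_DD x _ ?_ s) (hA x s hs)
    intro y hy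
    simp only [mem_filter, mem_univ, true_and] at hy
    exact hy

end aff

/-- numerical condition, affine growth -/
def Par4 (kap k m q : ℕ) (T lam : ℝ) : Prop :=
    1 < lam ∧ lam ≤ 11 / 10 ∧ (2 * ((q : ℝ) - 1) / q ^ 2) * lam < 1 ∧
    (1 - 2 * ((q : ℝ) - 1) / q ^ 2) * lam < 1 ∧
    11 / 10 * (((k : ℝ) + 2) / k) *
      (((2 * (2 * T - kap) * (2 * k - kap - 1) + 2 * T) *
          ((2 * ((q : ℝ) - 1) / q ^ 2) * lam) ^ k +
        4 * (2 * T - kap) * (((2 * ((q : ℝ) - 1) / q ^ 2) * lam) ^ (k + 1) /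
          (1 - (2 * ((q : ℝ) - 1) / q ^ 2) * lam))) +
      ((2 * (2 * T - kap) * (2 * m - kap - 1) + 2 * T) *
          ((1 - 2 * ((q : ℝ) - 1) / q ^ 2) * lam) ^ m +
        4 * (2 * T - kap) * (((1 - 2 * ((q : ℝ) - 1) / q ^ 2) * lam) ^ (m + 1) /
          (1 - (1 - 2 * ((q : ℝ) - 1) / q ^ 2) * lam)))) ≤ 1 - 1 / lam

/-- numerical condition, uniform colouring -/
def ParU (kap k : ℕ) (T lam : ℝ) : Prop :=
    1 < lam ∧ lam ≤ 11 / 10 ∧
    11 / 10 * (((k : ℝ) + 2) / k) *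
      ((2 * (2 * T - kap) * (2 * k - kap - 1) + 2 * T) * (1 / 2 * lam) ^ k +
        4 * (2 * T - kap) * ((1 / 2 * lam) ^ (k + 1) / (1 - 1 / 2 * lam))) ≤ 1 - 1 / lam

section fin

variable {V : Type} [Fintype V] [DecidableEq V] {G : SimpleGraph V} [DecidableRel G.Adj]

/-- the pairs of codegree at most `s` form a non-bipartite graph -/
def NB (G : SimpleGraph V) [DecidableRel G.Adj] (s : ℕ) : Prop :=
  ¬ ∃ f : V → Bool, ∀ u v, u ≠ v → ¬ G.Adj u v → t G u v ≤ s → f u ≠ f v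

lemma growthR {kap S : ℕ} {T : ℝ} (hcyc : S_Cyc) (hseq : S_Seq)
    (hdeg : ∀ u, Fintype.card V + kap ≤ 2 * (nb G u).card) (hnb : NB G S)
    (hkS : kap ≤ 2 * S) (hST : (S : ℝ) ≤ T) (a : ℕ) (ha : kap + 1 ≤ 2 * a) (x : V) (s : ℕ)
    (hs : a ≤ s) :
    ((DD G x s).card : ℝ) ≤ (2 * (2 * T - kap) * (2 * a - kap - 1) + 2 * T) +
      4 * (2 * T - kap) * ((s : ℝ) - a) := by
  have h1 := growth hcyc hseq hdeg hnb x s (by omega)
  have h2 : ((DD G x s).card : ℝ) ≤ 2 * (2 * S - kap) * (2 * s - kap - 1) + 2 * S := by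
    have e1 : ((2 * S - kap : ℕ) : ℝ) = 2 * S - kap := by
      rw [Nat.cast_sub hkS]; push_cast; ring
    have e2 : ((2 * s - kap - 1 : ℕ) : ℝ) = 2 * s - kap - 1 := by
      rw [Nat.sub_sub, Nat.cast_sub (by omega)]; push_cast; ring
    have h3 : ((DD G x s).card : ℝ) ≤ ((2 * (2 * S - kap) * (2 * s - kap - 1) + 2 * S : ℕ) : ℝ) := by
      exact_mod_cast h1
    push_cast at h3
    rw [← e1, ← e2]
    linarith
  have haR : (kap : ℝ) + 1 ≤ 2 * a := by exact_mod_cast ha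
  have hsR : (a : ℝ) ≤ s := by exact_mod_cast hs
  have h4 : 2 * (2 * (S : ℝ) - kap) * (2 * s - kap - 1) ≤
      2 * (2 * T - kap) * (2 * s - kap - 1) := by
    apply mul_le_mul_of_nonneg_right _ (by linarith)
    linarith
  nlinarith

/-- one range of scales -/
theorem step [Nonempty V] (hcyc : S_Cyc) (hseq : S_Seq) {kap S k m q : ℕ} {T lam : ℝ}
    (hdeg : ∀ u, Fintype.card V + kap ≤ 2 * (nb G u).card)
    (hk : ∀ u v, u ≠ v → ¬ G.Adj u v → k ≤ t G u v)
    (f : V → Bool) (hf : ∀ u v, u ≠ v → ¬ G.Adj u v → t G u v < S → f u ≠ f v)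
    (hnb : NB G S) (hkk : kap + 2 ≤ k) (hkm : k ≤ m) (hmS : m ≤ S) (hST : (S : ℝ) ≤ T)
    (hq : 2 ≤ q) (hpar : Par4 kap k m q T lam) :
    ∃ col : Sym2 V → Bool, ∀ u v, u ≠ v → ¬ G.Adj u v →
      ∃ w, G.Adj u w ∧ G.Adj v w ∧ col s(u, w) ≠ col s(v, w) := by
  obtain ⟨hl1, hl2, hr1, hr2, hnum⟩ := hpar
  have hqR : (2 : ℝ) ≤ q := by exact_mod_cast hq
  have hρ0 : 0 ≤ 2 * ((q : ℝ) - 1) / q ^ 2 := by
    apply div_nonneg (by linarith) (by positivity)
  have hρ1 : 2 * ((q : ℝ) - 1) / q ^ 2 ≤ 1 / 2 := by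
    rw [div_le_div_iff₀ (by positivity) (by norm_num)]
    nlinarith [sq_nonneg ((q : ℝ) - 2)]
  refine colCore V G f S k q lam _ hq hf (by omega) hk hl1 hl2 ?_ hnum
  intro x
  refine vertex_affine S k m _ _ _ _ _ (mul_nonneg hρ0 (by linarith)) hr1
    (mul_nonneg (by linarith) (by linarith)) hr2 hmS hk ?_ ?_ x
  · intro x s hs
    exact growthR hcyc hseq hdeg hnb (by omega) hST k (by omega) x s hs
  · intro x s hs
    exact growthR hcyc hseq hdeg hnb (by omega) hST m (by omega) x s hs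

/-- small scales: the uniform colouring -/
theorem stepU [Nonempty V] (hcyc : S_Cyc) (hseq : S_Seq) {kap S k : ℕ} {T lam : ℝ}
    (hdeg : ∀ u, Fintype.card V + kap ≤ 2 * (nb G u).card)
    (hk : ∀ u v, u ≠ v → ¬ G.Adj u v → k ≤ t G u v)
    (hnb : NB G S) (hkk : kap + 2 ≤ k) (hkS : kap ≤ 2 * S) (hST : (S : ℝ) ≤ T)
    (hpar : ParU kap k T lam) :
    ∃ col : Sym2 V → Bool, ∀ u v, u ≠ v → ¬ G.Adj u v →
      ∃ w, G.Adj u w ∧ G.Adj v w ∧ col s(u, w) ≠ col s(v, w) := by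
  obtain ⟨hl1, hl2, hnum⟩ := hpar
  refine colCore V G (fun _ => true) 0 k 2 lam _ le_rfl ?_ (by omega) hk hl1 hl2 ?_ hnum
  · intro u v _ _ h
    exact absurd h (Nat.not_lt_zero _)
  · intro x
    have e1 : (1 - 2 * (((2 : ℕ) : ℝ) - 1) / ((2 : ℕ) : ℝ) ^ 2) * lam = 1 / 2 * lam := by
      norm_num
    rw [e1]
    refine vertex_unif k _ _ _ _ (by linarith) (by linarith) hk ?_ x
    intro x s hs
    exact growthR hcyc hseq hdeg hnb hkS hST k (by omega) x s hs

/-- all scales bipartite -/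
theorem col_bip (f : V → Bool) (hf : ∀ u v, u ≠ v → ¬ G.Adj u v → f u ≠ f v)
    (hk : ∀ u v, u ≠ v → ¬ G.Adj u v → 1 ≤ t G u v) :
    ∃ col : Sym2 V → Bool, ∀ u v, u ≠ v → ¬ G.Adj u v →
      ∃ w, G.Adj u w ∧ G.Adj v w ∧ col s(u, w) ≠ col s(v, w) := by
  refine ⟨fun e => Sym2.lift ⟨fun a b => xor (f a) (f b), fun a b => Bool.xor_comm _ _⟩ e, ?_⟩
  intro u v huv hadj
  have h1 := hk u v huv hadj
  have h2 : (W G u v).Nonempty := card_pos.mp h1
  obtain ⟨w, hw⟩ := h2
  have hw' : G.Adj u w ∧ G.Adj v w := by simpa [W] using hw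
  refine ⟨w, hw'.1, hw'.2, ?_⟩
  have h3 := hf u v huv hadj
  simp only [Sym2.lift_mk]
  revert h3
  cases f u <;> cases f v <;> cases f w <;> simp

/-- huge scales -/
theorem stepBig [Nonempty V] (hcyc : S_Cyc) (hseq : S_Seq) {kap S k : ℕ}
    (hdeg : ∀ u, Fintype.card V + kap ≤ 2 * (nb G u).card)
    (hk : ∀ u v, u ≠ v → ¬ G.Adj u v → k ≤ t G u v)
    (f : V → Bool) (hf : ∀ u v, u ≠ v → ¬ G.Adj u v → t G u v < S → f u ≠ f v)
    (hnb : NB G S) (hkk : kap + 2 ≤ k) (hk3 : 3 ≤ k) (hkS : kap ≤ 2 * S) (hS : 2 ^ 100 ≤ S) :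
    ∃ col : Sym2 V → Bool, ∀ u v, u ≠ v → ¬ G.Adj u v →
      ∃ w, G.Adj u w ∧ G.Adj v w ∧ col s(u, w) ≠ col s(v, w) := by
  obtain ⟨q, hq, lam, hpar⟩ := Pool.Agent.T9h29.RB.s_num S hS
  refine col Pool.Agent.T9h73.RB.s_lll Pool.Agent.T9h73.RB.s_sum V G f S 3 S q lam
    (90 * (S : ℝ)) hq hf (by norm_num) (le_trans (by norm_num) hS) le_rfl
    (fun u v h1 h2 => le_trans hk3 (hk u v h1 h2)) ?_ hpar
  intro x s hs
  rcases Nat.lt_or_ge s k with hsk | hsk
  · have h0 : DD G x s = ∅ := by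
      rw [eq_empty_iff_forall_notMem]
      intro y hy
      simp only [DD, mem_filter, mem_univ, true_and] at hy
      have := hk x y hy.1.symm hy.2.1
      omega
    rw [h0]
    simp only [card_empty, Nat.cast_zero]
    positivity
  · have h1 := growthR (T := (S : ℝ)) hcyc hseq hdeg hnb hkS le_rfl k (by omega) x s hsk
    have h2 : (kap : ℝ) + 2 ≤ k := by exact_mod_cast hkk
    have h3 : (k : ℝ) ≤ s := by exact_mod_cast hsk
    have h4 : (0 : ℝ) ≤ kap := by positivity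
    have h5 : (0 : ℝ) ≤ S := by positivity
    have h6 : (kap : ℝ) ≤ 2 * S := by exact_mod_cast hkS
    have h7 : (1 : ℝ) ≤ s := by exact_mod_cast hs
    refine le_trans h1 ?_
    have h8 : 2 * (2 * (S : ℝ) - kap) * (2 * k - kap - 1) + 2 * S +
        4 * (2 * S - kap) * ((s : ℝ) - k) = 2 * (2 * S - kap) * (2 * s - kap - 1) + 2 * S := by
      ring
    rw [h8]
    have h9 : 2 * (2 * (S : ℝ) - kap) * (2 * s - kap - 1) ≤ 2 * (2 * S) * (2 * s) := by
      apply mul_le_mul _ _ (by linarith) (by positivity)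
      · linarith
      · linarith
    have h10 : (S : ℝ) ≤ S * s := by nlinarith
    nlinarith

/-- the least non-bipartite scale -/
theorem least_scale (k : ℕ) (hk : ∀ u v, u ≠ v → ¬ G.Adj u v → k ≤ t G u v) :
    (∃ f : V → Bool, ∀ u v, u ≠ v → ¬ G.Adj u v → f u ≠ f v) ∨
    ∃ (S : ℕ) (f : V → Bool), k ≤ S ∧ NB G S ∧
      ∀ u v, u ≠ v → ¬ G.Adj u v → t G u v < S → f u ≠ f v := by
  classical
  by_cases hex : ∃ S, NB G S
  · right
    have hS := Nat.find_spec hex
    have hmin := fun m => Nat.find_min hex (m := m)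
    set S := Nat.find hex with hSd
    have hkS : k ≤ S := by
      by_contra hcon
      apply hS
      refine ⟨fun _ => true, ?_⟩
      intro u v huv hadj ht
      have := hk u v huv hadj
      omega
    rcases Nat.eq_zero_or_pos S with h0 | h0
    · refine ⟨S, fun _ => true, hkS, hS, ?_⟩
      intro u v _ _ ht
      omega
    · have h1 := hmin (S - 1) (by omega)
      unfold NB at h1
      push Not at h1
      obtain ⟨f, hf⟩ := h1
      refine ⟨S, f, hkS, hS, ?_⟩
      intro u v huv hadj ht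
      exact hf u v huv hadj (by omega)
  · left
    push Not at hex
    have h1 := hex (Fintype.card V)
    unfold NB at h1
    push Not at h1
    obtain ⟨f, hf⟩ := h1
    refine ⟨f, fun u v huv hadj => hf u v huv hadj ?_⟩
    exact card_le_univ _

end fin

end Pool.Agent.T9h97.RB
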