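import Mathlib
import Pool.Agent.T9h97.RB.Aff

set_option autoImplicit false

open Finset

namespace Pool.Agent.T9h97.RB

/-- `Par4` with `r ^ (a b)` replaced by `u ^ b`, where `r ^ a ≤ u` -/
lemma par4_of (kap k a b q : ℕ) (T lam u : ℝ) (hl : 1 < lam) (hl' : lam ≤ 11 / 10)
    (hr1 : (2 * ((q : ℝ) - 1) / q ^ 2) * lam < 1)
    (hr2 : (1 - 2 * ((q : ℝ) - 1) / q ^ 2) * lam < 1)
    (hr0 : 0 ≤ (1 - 2 * ((q : ℝ) - 1) / q ^ 2) * lam)
    (hu : ((1 - 2 * ((q : ℝ) - 1) / q ^ 2) * lam) ^ a ≤ u)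
    (hB : 0 ≤ 4 * (2 * T - kap))
    (hA : 0 ≤ 2 * (2 * T - kap) * (2 * ((a * b : ℕ) : ℝ) - kap - 1) + 2 * T)
    (hnum : 11 / 10 * (((k : ℝ) + 2) / k) *
      (((2 * (2 * T - kap) * (2 * k - kap - 1) + 2 * T) *
          ((2 * ((q : ℝ) - 1) / q ^ 2) * lam) ^ k +
        4 * (2 * T - kap) * (((2 * ((q : ℝ) - 1) / q ^ 2) * lam) ^ (k + 1) /
          (1 - (2 * ((q : ℝ) - 1) / q ^ 2) * lam))) +
      ((2 * (2 * T - kap) * (2 * ((a * b : ℕ) : ℝ) - kap - 1) + 2 * T) * u ^ b +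
        4 * (2 * T - kap) * (u ^ b / (1 - (1 - 2 * ((q : ℝ) - 1) / q ^ 2) * lam)))) ≤
      1 - 1 / lam) : Par4 kap k (a * b) q T lam := by
  refine ⟨hl, hl', hr1, hr2, le_trans ?_ hnum⟩
  set r := (1 - 2 * ((q : ℝ) - 1) / q ^ 2) * lam with hr
  have h1 : r ^ (a * b) ≤ u ^ b := by
    rw [pow_mul]
    exact pow_le_pow_left₀ (pow_nonneg hr0 a) hu b
  have h2 : r ^ (a * b + 1) ≤ u ^ b := by
    rw [pow_succ]
    have h3 : r ^ (a * b) * r ≤ r ^ (a * b) * 1 :=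
      mul_le_mul_of_nonneg_left hr2.le (pow_nonneg hr0 _)
    linarith
  have h4 : 0 < 1 - r := by linarith
  apply mul_le_mul_of_nonneg_left _ (by positivity)
  apply add_le_add le_rfl
  apply add_le_add
  · exact mul_le_mul_of_nonneg_left h1 hA
  · apply mul_le_mul_of_nonneg_left _ hB
    exact div_le_div_of_nonneg_right h2 h4.le

lemma u18 : ParU 0 18 28 (105 / 100) := by
  unfold ParU
  norm_num

lemma u16 : ParU 14 16 21 (105 / 100) := by
  unfold ParU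
  norm_num

lemma r18A : Par4 0 18 29 3 190 (105 / 100) := by
  unfold Par4
  norm_num

lemma r18B : Par4 0 18 191 10 (2 ^ 30) (102 / 100) := by
  unfold Par4
  norm_num

lemma r18C : Par4 0 18 (100 * 60) 100 (2 ^ 86) (1005 / 1000) := by
  apply par4_of 0 18 100 60 100 (2 ^ 86) (1005 / 1000) (223 / 1000) <;> norm_num

lemma r18D : Par4 0 18 (200 * 150) 400 (2 ^ 100) (1001 / 1000) := by
  apply par4_of 0 18 200 150 400 (2 ^ 100) (1001 / 1000) (9 / 20) <;> norm_num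

lemma r16A : Par4 14 16 22 3 36 (1045 / 1000) := by
  unfold Par4
  norm_num

lemma r16B : Par4 14 16 37 4 600 (104 / 100) := by
  unfold Par4
  norm_num

lemma r16C : Par4 14 16 (100 * 6) 20 (2 ^ 41) (102 / 100) := by
  apply par4_of 14 16 100 6 20 (2 ^ 41) (102 / 100) (1 / 2000) <;> norm_num

lemma r16D : Par4 14 16 (100 * 60) 100 (2 ^ 76) (1005 / 1000) := by
  apply par4_of 14 16 100 60 100 (2 ^ 76) (1005 / 1000) (223 / 1000) <;> norm_num

lemma r16E : Par4 14 16 (200 * 150) 400 (2 ^ 100) (1001 / 1000) := by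
  apply par4_of 14 16 200 150 400 (2 ^ 100) (1001 / 1000) (9 / 20) <;> norm_num

end Pool.Agent.T9h97.RB
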