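import Mathlib
import Pool.Agent.T9h97.RB.Rng
import Pool.Agent.T9h97.RB.RC
import Pool.Agent.T9h73.RB.Cyc
import Pool.Agent.T9h8.RB.Seq

set_option autoImplicit false

open Finset

namespace Pool.Agent.T9h97.RB

open Pool.Agent.Helper208.Rainbow

variable {V : Type} [Fintype V] [DecidableEq V] {G : SimpleGraph V} [DecidableRel G.Adj]

/-- eighteen common neighbours -/
theorem main18 [Nonempty V] (hdeg : ∀ u, Fintype.card V ≤ 2 * (nb G u).card)
    (hk : ∀ u v, u ≠ v → ¬ G.Adj u v → 18 ≤ t G u v) :
    ∃ col : Sym2 V → Bool, ∀ u v, u ≠ v → ¬ G.Adj u v →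
      ∃ w, G.Adj u w ∧ G.Adj v w ∧ col s(u, w) ≠ col s(v, w) := by
  have hcyc := Pool.Agent.T9h73.RB.cyc
  have hseq := Pool.Agent.T9h8.RB.seq
  have hd : ∀ u, Fintype.card V + 0 ≤ 2 * (nb G u).card := by simpa using hdeg
  rcases least_scale 18 hk with ⟨f, hf⟩ | ⟨S, f, hkS, hnb, hf⟩
  · exact col_bip f hf (fun u v h1 h2 => le_trans (by norm_num) (hk u v h1 h2))
  · rcases Nat.lt_or_ge 28 S with h1 | h1
    · rcases Nat.lt_or_ge 190 S with h2 | h2
      · rcases Nat.lt_or_ge (2 ^ 30) S with h3 | h3
        · rcases Nat.lt_or_ge (2 ^ 86) S with h4 | h4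
          · rcases Nat.lt_or_ge (2 ^ 100) S with h5 | h5
            · exact stepBig hcyc hseq hd hk f hf hnb (by norm_num) (by norm_num) (by omega) h5.le
            · exact step hcyc hseq hd hk f hf hnb (by norm_num) (by norm_num)
                (le_trans (by norm_num) h4.le) (by exact_mod_cast h5) (by norm_num) r18D
          · exact step hcyc hseq hd hk f hf hnb (by norm_num) (by norm_num)
              (le_trans (by norm_num) h3.le) (by exact_mod_cast h4) (by norm_num) r18C
        · exact step hcyc hseq hd hk f hf hnb (by norm_num) (by norm_num)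
            h2 (by exact_mod_cast h3) (by norm_num) r18B
      · exact step hcyc hseq hd hk f hf hnb (by norm_num) (by norm_num)
          h1 (by exact_mod_cast h2) (by norm_num) r18A
    · exact stepU hcyc hseq hd hk hnb (by norm_num) (by omega) (by exact_mod_cast h1) u18

/-- twice the minimum degree at least `n + 14` -/
theorem main16 [Nonempty V] (hdeg : ∀ u, Fintype.card V + 14 ≤ 2 * (nb G u).card)
    (hk : ∀ u v, u ≠ v → ¬ G.Adj u v → 16 ≤ t G u v) :
    ∃ col : Sym2 V → Bool, ∀ u v, u ≠ v → ¬ G.Adj u v →
      ∃ w, G.Adj u w ∧ G.Adj v w ∧ col s(u, w) ≠ col s(v, w) := by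
  have hcyc := Pool.Agent.T9h73.RB.cyc
  have hseq := Pool.Agent.T9h8.RB.seq
  rcases least_scale 16 hk with ⟨f, hf⟩ | ⟨S, f, hkS, hnb, hf⟩
  · exact col_bip f hf (fun u v h1 h2 => le_trans (by norm_num) (hk u v h1 h2))
  · rcases Nat.lt_or_ge 21 S with h0 | h0
    · rcases Nat.lt_or_ge 36 S with h1 | h1
      · rcases Nat.lt_or_ge 600 S with h2 | h2
        · rcases Nat.lt_or_ge (2 ^ 41) S with h3 | h3
          · rcases Nat.lt_or_ge (2 ^ 76) S with h4 | h4
            · rcases Nat.lt_or_ge (2 ^ 100) S with h5 | h5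
              · exact stepBig hcyc hseq hdeg hk f hf hnb (by norm_num) (by norm_num) (by omega)
                  h5.le
              · exact step hcyc hseq hdeg hk f hf hnb (by norm_num) (by norm_num)
                  (le_trans (by norm_num) h4.le) (by exact_mod_cast h5) (by norm_num) r16E
            · exact step hcyc hseq hdeg hk f hf hnb (by norm_num) (by norm_num)
                (le_trans (by norm_num) h3.le) (by exact_mod_cast h4) (by norm_num) r16D
          · exact step hcyc hseq hdeg hk f hf hnb (by norm_num) (by norm_num)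
              (le_trans (by norm_num) h2.le) (by exact_mod_cast h3) (by norm_num) r16C
        · exact step hcyc hseq hdeg hk f hf hnb (by norm_num) (by norm_num)
            h1 (by exact_mod_cast h2) (by norm_num) r16B
      · exact step hcyc hseq hdeg hk f hf hnb (by norm_num) (by norm_num)
          h0 (by exact_mod_cast h1) (by norm_num) r16A
    · exact stepU hcyc hseq hdeg hk hnb (by norm_num) (by omega) (by exact_mod_cast h0) u16

end Pool.Agent.T9h97.RB
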