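import Mathlib
import Pool.Agent.T9h97.RB.Col3
import Pool.Agent.T9h97.RB.Main

set_option autoImplicit false

open Finset

namespace Pool.Agent.T9h97.RB

open Pool.Agent.Helper208.Rainbow

lemma range3A : Par3 22 22 2 (209 / 200) 0 (90 * 27) := by
  unfold Par3
  norm_num

lemma range3B : Par3 22 28 3 (103 / 100) (90 * 48) (90 * 48) := by
  unfold Par3
  norm_num

lemma range3C : Par3 22 49 4 (103 / 100) (90 * 6700) (90 * 6700) := by
  unfold Par3
  norm_num

set_option exponentiation.threshold 10000 in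
lemma range3D : Par3 22 6000 100 (1005 / 1000) (90 * 2 ^ 100) (90 * 2 ^ 100) := by
  unfold Par3
  norm_num

variable {V : Type} [Fintype V] [DecidableEq V] {G : SimpleGraph V} [DecidableRel G.Adj]

/-- twenty-two common neighbours -/
theorem main22 [Nonempty V] (hdeg : ∀ u, Fintype.card V ≤ 2 * (nb G u).card)
    (h22 : ∀ u v, u ≠ v → ¬ G.Adj u v → 22 ≤ t G u v) :
    ∃ col : Sym2 V → Bool, ∀ u v, u ≠ v → ¬ G.Adj u v →
      ∃ w, G.Adj u w ∧ G.Adj v w ∧ col s(u, w) ≠ col s(v, w) := by
  obtain ⟨S, f, hBS, hf, hD⟩ := scale2 hdeg 22 (fun _ => true) (by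
    intro u v huv hadj ht
    have := h22 u v huv hadj
    omega)
  have hDr : ∀ Dr : ℝ, 90 * (S : ℝ) ≤ Dr → ∀ x s, 1 ≤ s →
      ((DD G x s).card : ℝ) ≤ Dr * s := by
    intro Dr hN x s hs
    have h1 := (hD x s hs).le
    have h2 : ((DD G x s).card : ℝ) ≤ 90 * s * S := by exact_mod_cast h1
    have h3 : (90 * (S : ℝ)) * s ≤ Dr * s := mul_le_mul_of_nonneg_right hN (by positivity)
    linarith
  have hDf : ∀ Dr : ℝ, 90 * (S : ℝ) ≤ Dr → ∀ x s, 1 ≤ s →
      (((DD G x s).filter (fun y => t G x y < S)).card : ℝ) ≤ Dr * s := by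
    intro Dr hN x s hs
    refine le_trans ?_ (hDr Dr hN x s hs)
    exact_mod_cast card_le_card (filter_subset _ _)
  rcases Nat.lt_or_ge 27 S with hA | hA
  · rcases Nat.lt_or_ge 48 S with hB | hB
    · rcases Nat.lt_or_ge 6700 S with hC | hC
      · rcases Nat.lt_or_ge (2 ^ 100) S with hF | hF
        · obtain ⟨q, hq, lam, hpar⟩ := Pool.Agent.T9h29.RB.s_num S hF.le
          exact col Pool.Agent.T9h73.RB.s_lll Pool.Agent.T9h73.RB.s_sum V G f S 3 S q lam
            (90 * (S : ℝ)) hq hf (by norm_num) (le_trans (by norm_num) hF.le) le_rfl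
            (fun u v h1 h2 => le_trans (by norm_num) (h22 u v h1 h2)) (hDr _ le_rfl) hpar
        · have h0 : 90 * (S : ℝ) ≤ 90 * 2 ^ 100 := by
            have : (S : ℝ) ≤ 2 ^ 100 := by exact_mod_cast hF
            linarith
          exact col3 Pool.Agent.T9h73.RB.s_sum V G f S 22 6000 100
            (1005 / 1000) (90 * 2 ^ 100) (90 * 2 ^ 100) (by norm_num) hf (by norm_num)
            (by norm_num) (by omega) h22 (hDf _ h0) (hDr _ h0) range3D
      · have h0 : 90 * (S : ℝ) ≤ 90 * 6700 := by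
          have : (S : ℝ) ≤ 6700 := by exact_mod_cast hC
          linarith
        exact col3 Pool.Agent.T9h73.RB.s_sum V G f S 22 49 4
          (103 / 100) (90 * 6700) (90 * 6700) (by norm_num) hf (by norm_num)
          (by norm_num) hB h22 (hDf _ h0) (hDr _ h0) range3C
    · have h0 : 90 * (S : ℝ) ≤ 90 * 48 := by
        have : (S : ℝ) ≤ 48 := by exact_mod_cast hB
        linarith
      exact col3 Pool.Agent.T9h73.RB.s_sum V G f S 22 28 3
        (103 / 100) (90 * 48) (90 * 48) (by norm_num) hf (by norm_num)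
        (by norm_num) hA h22 (hDf _ h0) (hDr _ h0) range3B
  · have h0 : 90 * (S : ℝ) ≤ 90 * 27 := by
      have : (S : ℝ) ≤ 27 := by exact_mod_cast hA
      linarith
    refine col3 Pool.Agent.T9h73.RB.s_sum V G (fun _ => true) 22 22 22 2
      (209 / 200) 0 (90 * 27) (by norm_num) ?_ (by norm_num)
      (by norm_num) le_rfl h22 ?_ (hDr _ h0) range3A
    · intro u v huv hadj ht
      have := h22 u v huv hadj
      omega
    · intro x s _
      have h1 : (DD G x s).filter (fun y => t G x y < 22) = ∅ := by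
        rw [filter_eq_empty_iff]
        intro y hy
        simp only [DD, mem_filter, mem_univ, true_and] at hy
        have := h22 x y hy.1.symm hy.2.1
        omega
      rw [h1]
      simp

end Pool.Agent.T9h97.RB
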